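import Pool.Agent.H.MP_ac3185_nt.helper16.Cmb

/-! Half of all pairs: the squares modulo `8 N` have bounded index. -/

set_option autoImplicit false

open scoped symmDiff

namespace Pool.Agent.H.MP_ac3185_nt.HT

open Finset

/-- PROOF. `P` = the prime factors of `2 N`. Let `S ∩ P = S' ∩ P` and
`num (S \ P) ≡ num (S' \ P)` modulo `8 N`. Then `S ∆ S' = (S \ P) ∆ (S' \ P)`, the number
`u = num (S \ P)` is prime to `8 N`, and by `num_mul`
`num (S ∆ S') * w ^ 2 ≡ u ^ 2`, `w = num ((S \ P) ∩ (S' \ P))`; multiply with the square of an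
inverse of `u` modulo `8 N`. -/
theorem nice_of_eq {N : ℕ} (hN : N ≠ 0) {S S' : Finset ℕ} (hp : ∀ q ∈ S, q.Prime)
    (hp' : ∀ q ∈ S', q.Prime)
    (h1 : S ∩ (2 * N).primeFactors = S' ∩ (2 * N).primeFactors)
    (h2 : ((num (S \ (2 * N).primeFactors) : ℕ) : ZMod (8 * N)) =
      (num (S' \ (2 * N).primeFactors) : ℕ)) : Nice N (S ∆ S') := by
  have h8 : 8 * N ≠ 0 := by omega
  have : NeZero (8 * N) := ⟨h8⟩
  obtain ⟨P, hP⟩ : ∃ P, P = (2 * N).primeFactors := ⟨_, rfl⟩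
  rw [← hP] at h1 h2
  have hSS : S ∆ S' = (S \ P) ∆ (S' \ P) := by
    ext q
    have h3 : q ∈ S ∩ P ↔ q ∈ S' ∩ P := by rw [h1]
    rw [Finset.mem_inter, Finset.mem_inter] at h3
    simp only [Finset.mem_symmDiff, Finset.mem_sdiff]
    tauto
  have hcop : Nat.Coprime (num (S \ P)) (8 * N) := by
    unfold num
    refine Nat.Coprime.prod_left ?_
    intro q hq
    rw [Finset.mem_sdiff] at hq
    rw [(hp q hq.1).coprime_iff_not_dvd]
    intro hd
    apply hq.2
    rw [hP, Nat.mem_primeFactors]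
    refine ⟨hp q hq.1, ?_, by omega⟩
    have h4 : q ∣ 2 ^ 2 * (2 * N) := by
      rw [show 2 ^ 2 * (2 * N) = 8 * N by ring]
      exact hd
    rcases (hp q hq.1).dvd_mul.1 h4 with h5 | h5
    · exact ((hp q hq.1).dvd_of_dvd_pow h5).trans (Dvd.intro _ rfl)
    · exact h5
  have hnm := num_mul (S \ P) (S' \ P)
  rw [← hSS] at hnm
  obtain ⟨v, hv⟩ : ∃ v : ZMod (8 * N), (num (S \ P) : ZMod (8 * N)) * v = 1 := by
    refine ⟨((ZMod.unitOfCoprime _ hcop)⁻¹ : (ZMod (8 * N))ˣ), ?_⟩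
    have := (ZMod.unitOfCoprime _ hcop).mul_inv
    rwa [ZMod.coe_unitOfCoprime] at this
  refine ⟨num ((S \ P) ∩ (S' \ P)) * v.val, ?_⟩
  rw [← ZMod.natCast_eq_natCast_iff]
  push_cast
  rw [ZMod.natCast_zmod_val]
  have h3 : ((num (S \ P) * num (S' \ P) : ℕ) : ZMod (8 * N)) =
      ((num (S ∆ S') * num ((S \ P) ∩ (S' \ P)) ^ 2 : ℕ) : ZMod (8 * N)) := by rw [hnm]
  push_cast at h3
  rw [← h2] at h3
  calc ((num ((S \ P) ∩ (S' \ P)) : ZMod (8 * N)) * v) ^ 2 * (num (S ∆ S') : ZMod (8 * N))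
      = v ^ 2 * ((num (S ∆ S') : ZMod (8 * N)) * (num ((S \ P) ∩ (S' \ P)) : ZMod (8 * N)) ^ 2) := by
        ring
    _ = ((num (S \ P) : ZMod (8 * N)) * v) ^ 2 := by rw [← h3]; ring
    _ = 1 := by rw [hv, one_pow]

/-- PROOF. Pigeonhole: the map `S ↦ (S ∩ P, num (S \ P) mod 8 N)` has at most
`c = 2 ^ card P * (8 N)` values, and for a fixed `S₀` of one fibre `S ↦ S ∆ S₀` is an injection of
the fibre into `niceSets N T` (`nice_of_eq`). -/
theorem exists_index {N : ℕ} (hN : N ≠ 0) : ∃ c : ℕ, ∀ T : Finset ℕ, (∀ q ∈ T, q.Prime) →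
    2 ^ T.card ≤ c * (niceSets N T).card := by
  classical
  have h8 : 8 * N ≠ 0 := by omega
  have : NeZero (8 * N) := ⟨h8⟩
  obtain ⟨P, hP⟩ : ∃ P, P = (2 * N).primeFactors := ⟨_, rfl⟩
  refine ⟨2 ^ P.card * (8 * N), ?_⟩
  intro T hT
  obtain ⟨f, hf⟩ : ∃ f : Finset ℕ → Finset ℕ × ZMod (8 * N),
      f = fun S => (S ∩ P, ((num (S \ P) : ℕ) : ZMod (8 * N))) := ⟨_, rfl⟩
  have h1 : T.powerset.card ≤ (niceSets N T).card * (T.powerset.image f).card := by
    refine Finset.card_le_mul_card_image (f := f) T.powerset _ ?_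
    intro a ha
    obtain ⟨S₀, hS₀, rfl⟩ := Finset.mem_image.1 ha
    refine Finset.card_le_card_of_injOn (fun S => S ∆ S₀) ?_ ?_
    · intro S hS
      rw [Finset.mem_coe, Finset.mem_filter] at hS
      obtain ⟨hS1, hS2⟩ := hS
      rw [hf] at hS2
      simp only [Prod.mk.injEq] at hS2
      have hp : ∀ q ∈ S, q.Prime := fun q hq => hT q (Finset.mem_powerset.1 hS1 hq)
      have hp' : ∀ q ∈ S₀, q.Prime := fun q hq => hT q (Finset.mem_powerset.1 hS₀ hq)
      show S ∆ S₀ ∈ niceSets N T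
      unfold niceSets
      rw [Finset.mem_filter]
      refine ⟨powerset_symmDiff hS1 hS₀, nice_of_eq hN hp hp' ?_ ?_⟩
      · rw [← hP]
        exact hS2.1
      · rw [← hP]
        exact hS2.2
    · intro S _ S' _ h
      exact symmDiff_left_injective S₀ h
  have h2 : (T.powerset.image f).card ≤ 2 ^ P.card * (8 * N) := by
    have h3 : T.powerset.image f ⊆ P.powerset ×ˢ (Finset.univ : Finset (ZMod (8 * N))) := by
      intro a ha
      obtain ⟨S, -, rfl⟩ := Finset.mem_image.1 ha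
      rw [Finset.mem_product]
      rw [hf]
      exact ⟨Finset.mem_powerset.2 Finset.inter_subset_right, Finset.mem_univ _⟩
    refine (Finset.card_le_card h3).trans ?_
    rw [Finset.card_product, Finset.card_powerset, Finset.card_univ, ZMod.card]
  rw [Finset.card_powerset] at h1
  calc 2 ^ T.card ≤ (niceSets N T).card * (T.powerset.image f).card := h1
    _ ≤ (niceSets N T).card * (2 ^ P.card * (8 * N)) := Nat.mul_le_mul_left _ h2
    _ = 2 ^ P.card * (8 * N) * (niceSets N T).card := by ring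

end Pool.Agent.H.MP_ac3185_nt.HT
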