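import Pool.Agent.H.MP_ac3185_nt.helper16.Degree

/-! Half of all pairs: the Galois extensions `F` with a given largest multiquadratic subextension. -/

set_option autoImplicit false

open CategoryTheory AlgebraicGeometry NumberField IsDedekindDomain
open scoped MonObj symmDiff

namespace Pool.Agent.H.MP_ac3185_nt.HT

universe u

/-- `F` is a finite Galois extension of `K` containing `F₀`, its Galois group has a normal
`2`-complement, and all quadratic extensions of `K` in `F` lie in `F₀`. (For instance `F / K` is an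
abelian or nilpotent extension with largest multiquadratic subextension `F₀`.) -/
def Over2 {K : Type u} [Field K] (F₀ F : IntermediateField K (AlgebraicClosure K)) : Prop :=
  F₀ ≤ F ∧ FiniteDimensional K F ∧ IsGalois K F ∧ TwoNilpotent F ∧
    ∀ Q : IntermediateField K (AlgebraicClosure K), Q ≤ F → Module.finrank K Q = 2 → Q ≤ F₀

variable {K : Type u} [Field K] [CharZero K] {m : ℕ} (D : Fin m → Finset ℕ)

/-- The field `F₀` itself is one of these extensions. -/
theorem over2_self : Over2 (sqrtField K D) (sqrtField K D) :=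
  ⟨le_rfl, sqrtField_finite D, sqrtField_isGalois D, sqrtField_two D, fun _ hQ _ => hQ⟩

theorem above_cmb (h0 : ∀ i, 0 ∉ D i) (J : Finset (Fin m)) : 0 ∉ cmb D J := by
  refine cmb_induction D (fun S => 0 ∉ S) (Finset.notMem_empty 0) (fun S S' h h' hm => ?_) h0 J
  rcases Finset.mem_symmDiff.1 hm with h2 | h2
  · exact h h2.1
  · exact h' h2.1

theorem above_chi (h0 : ∀ i, 0 ∉ D i) (J : Finset (Fin m)) :
    chi (K := K) (num (cmb D J)) = ∏ i ∈ J, chi (num (D i)) := by
  classical
  induction J using Finset.induction_on with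
  | empty =>
    rw [cmb_empty, Finset.prod_empty]
    have : num ∅ = 1 := by simp [num]
    rw [this, chi_one]
  | insert j J hj ih =>
    rw [cmb_insert D j J hj, Finset.prod_insert hj,
      chi_num_symmDiff (h0 j) (above_cmb D h0 J), ih]

theorem above_eps (F : IntermediateField K (AlgebraicClosure K)) [Normal K F]
    (hF : sqrtField K D ≤ F) (h0 : ∀ i, 0 ∉ D i) (J : Finset (Fin m)) :
    ∃ ε : (F ≃ₐ[K] F) →* ℤˣ, ∀ σ : AlgebraicClosure K ≃ₐ[K] AlgebraicClosure K,
      ε (AlgEquiv.restrictNormalHom F σ) = chi (num (cmb D J)) σ := by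
  have hsurj : Function.Surjective (AlgEquiv.restrictNormalHom (F := K) (K₁ := AlgebraicClosure K)
      F) := AlgEquiv.restrictNormalHom_surjective (AlgebraicClosure K)
  have hker : (AlgEquiv.restrictNormalHom (F := K) (K₁ := AlgebraicClosure K)
      F).ker ≤ (chi (K := K) (num (cmb D J))).ker := by
    intro σ hσ
    rw [MonoidHom.mem_ker] at hσ ⊢
    rw [chi_eq_one_iff _ σ _ (rt_sq K (num (cmb D J)))]
    have h1 := AlgEquiv.restrictNormal_commutes σ F
      ⟨rt K (num (cmb D J)), hF (rt_mem D h0 J)⟩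
    have h2 : σ.restrictNormal F = 1 := hσ
    rw [h2] at h1
    exact h1.symm
  refine ⟨MonoidHom.liftOfRightInverse _ _ (Function.rightInverse_surjInv hsurj)
    ⟨chi (K := K) (num (cmb D J)), hker⟩, fun σ => ?_⟩
  exact MonoidHom.liftOfRightInverse_comp_apply _ _ _ _ _

theorem above_subset (F : IntermediateField K (AlgebraicClosure K)) [FiniteDimensional K F]
    [IsGalois K F] (hq : ∀ Q : IntermediateField K (AlgebraicClosure K), Q ≤ F →
      Module.finrank K Q = 2 → Q ≤ sqrtField K D) (h0 : ∀ i, 0 ∉ D i)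
    (ε : (F ≃ₐ[K] F) →* ℤˣ) :
    ∃ J : Finset (Fin m), ∀ σ : AlgebraicClosure K ≃ₐ[K] AlgebraicClosure K,
      ε (AlgEquiv.restrictNormalHom F σ) = chi (num (cmb D J)) σ := by
  classical
  have hn0 : ∀ i, num (D i) ≠ 0 := fun i => by
    unfold num
    rw [Finset.prod_ne_zero_iff]
    rintro q hq' rfl
    exact h0 i hq'
  let d : ℕ → ℕ := fun j => if h : j < m then num (D ⟨j, h⟩) else 1
  have hd : ∀ j, d j ≠ 0 := by
    intro j
    by_cases h : j < m
    · simp only [d, dif_pos h]
      exact hn0 _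
    · simp only [d, dif_neg h]
      exact one_ne_zero
  have hle : sqrtField K D ≤ sqrtTower K d 0 := by
    unfold sqrtField sqrtTower
    apply IntermediateField.adjoin.mono
    rintro x ⟨i, hx⟩
    refine ⟨i, Nat.zero_le _, ?_⟩
    simp only [d, dif_pos i.2]
    exact hx
  obtain ⟨t, -, ht⟩ := char_tower d hd 0 F (fun Q hQ hQ2 => (hq Q hQ hQ2).trans hle) ε
  refine ⟨Finset.univ.filter (fun i : Fin m => (i : ℕ) ∈ t), fun σ => ?_⟩
  rw [ht, above_chi D h0, chi_prod t d (fun j _ => hd j), MonoidHom.finset_prod_apply,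
    MonoidHom.finset_prod_apply]
  have h1 : ∏ j ∈ t, chi (d j) σ = ∏ j ∈ t.filter (fun j => j < m), chi (K := K) (d j) σ := by
    rw [Finset.prod_filter]
    refine Finset.prod_congr rfl fun j _ => ?_
    by_cases h : j < m
    · rw [if_pos h]
    · rw [if_neg h]
      simp only [d, dif_neg h]
      rw [chi_one]
      rfl
  rw [h1]
  refine Finset.prod_bij' (fun j hj => (⟨j, (Finset.mem_filter.1 hj).2⟩ : Fin m))
    (fun i _ => (i : ℕ)) ?_ ?_ ?_ ?_ ?_
  · intro j hj
    rw [Finset.mem_filter]
    exact ⟨Finset.mem_univ _, (Finset.mem_filter.1 hj).1⟩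
  · intro i hi
    rw [Finset.mem_filter]
    exact ⟨(Finset.mem_filter.1 hi).2, i.2⟩
  · intro j hj
    rfl
  · intro i hi
    rfl
  · intro j hj
    have h := (Finset.mem_filter.1 hj).2
    simp only [d, dif_pos h]

theorem above_equiv (F : IntermediateField K (AlgebraicClosure K)) [FiniteDimensional K F]
    [IsGalois K F] (hF : sqrtField K D ≤ F)
    (hq : ∀ Q : IntermediateField K (AlgebraicClosure K), Q ≤ F →
      Module.finrank K Q = 2 → Q ≤ sqrtField K D) (h0 : ∀ i, 0 ∉ D i) (hind : Indep K D) :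
    ∃ E : Finset (Fin m) ≃ ((F ≃ₐ[K] F) →* ℤˣ),
      ∀ (J : Finset (Fin m)) (σ : AlgebraicClosure K ≃ₐ[K] AlgebraicClosure K),
        E J (AlgEquiv.restrictNormalHom F σ) = chi (num (cmb D J)) σ := by
  choose e he using above_eps D F hF h0
  have hsurj : ∀ g : F ≃ₐ[K] F, ∃ σ : AlgebraicClosure K ≃ₐ[K] AlgebraicClosure K,
      AlgEquiv.restrictNormalHom F σ = g :=
    AlgEquiv.restrictNormalHom_surjective (AlgebraicClosure K)
  have hbij : Function.Bijective e := by
    constructor
    · intro J J' h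
      have h1 : chi (K := K) (num (cmb D J)) = chi (num (cmb D J')) := by
        apply MonoidHom.ext
        intro σ
        rw [← he J σ, ← he J' σ, h]
      have h2 : chi (K := K) (num (cmb D (J ∆ J'))) = 1 := by
        rw [cmb_symmDiff, chi_num_symmDiff (above_cmb D h0 J) (above_cmb D h0 J'), h1,
          Chi_self_mul]
      obtain ⟨x, hx⟩ := (chi_num_eq_one (K := K) _).1 h2
      by_contra hne
      refine hind (J ∆ J') ?_ x hx
      rw [Finset.nonempty_iff_ne_empty]
      intro h3
      exact hne (symmDiff_eq_bot.1 h3)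
    · intro ε
      obtain ⟨J, hJ⟩ := above_subset D F hq h0 ε
      refine ⟨J, ?_⟩
      apply MonoidHom.ext
      intro g
      obtain ⟨σ, rfl⟩ := hsurj g
      rw [he, hJ]
  exact ⟨Equiv.ofBijective e hbij, fun J σ => he J σ⟩

/-- The parity of the rank of a quadratic twist over a Galois extension. -/
theorem above_rank (h0 : ∀ i, 0 ∉ D i) (hind : Indep K D) (S : Finset ℕ) (hS : 0 ∉ S)
    (A B : Over (Spec (.of K))) [GrpObj A] [IsAbVar A] [GrpObj B] [IsAbVar B]
    (hAB : IsQuadTwist A B (num S))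
    (he : Even (∑ J : Finset (Fin m), chiRank A (num (S ∆ cmb D J))))
    (F : IntermediateField K (AlgebraicClosure K)) (hF : Over2 (sqrtField K D) F) :
    Even (Module.rank ℤ (Pts B F)) := by
  classical
  obtain ⟨hle, hfd0, hgal, hnil, hq⟩ := hF
  rcases lt_or_ge (Module.rank ℤ (Pts B F)) Cardinal.aleph0 with h1 | h1
  · obtain ⟨r, hr⟩ := Cardinal.lt_aleph0.1 h1
    rw [hr]
    apply gt_even_nat
    have hfinG : Finite (F ≃ₐ[K] F) := inferInstance
    obtain ⟨M, _, _, ρ, hM, hε⟩ := exists_twistRep A B _ hAB F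
    have hMr : Module.rank ℚ M = (r : Cardinal) := hM.trans hr
    have hfd : FiniteDimensional ℚ M := Module.rank_lt_aleph0_iff.1 (by
      rw [hMr]; exact Cardinal.natCast_lt_aleph0)
    have hMf : Module.finrank ℚ M = r := Module.finrank_eq_of_rank_eq hMr
    obtain ⟨N, hN, hodd, h2⟩ := hnil
    have hmod := finrank_two_nilpotent N hodd h2 ρ
    obtain ⟨E, hE⟩ := above_equiv D F hle hq h0 hind
    have hfin : Finite ((F ≃ₐ[K] F) →* ℤˣ) := DFunLike.finite _
    have _ : Fintype ((F ≃ₐ[K] F) →* ℤˣ) := Fintype.ofFinite _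
    rw [hMf, finsum_eq_sum_of_fintype, ← Equiv.sum_comp E] at hmod
    have h5 : ∀ J : Finset (Fin m),
        Module.finrank ℚ (epsPart ρ (E J)) = chiRank A (num (S ∆ cmb D J)) := by
      intro J
      have h6 := hε (E J) (num (S ∆ cmb D J)) (fun σ => by
        rw [hE, chi_num_symmDiff hS (above_cmb D h0 J), MonoidHom.mul_apply, mul_comm])
      unfold chiRank Module.finrank
      rw [h6]
    rw [Finset.sum_congr rfl fun J _ => h5 J] at hmod
    rw [Nat.even_iff] at he ⊢
    exact (show r % 2 = _ from hmod).trans he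
  · have h2 := gt_even_infinite _ h1 0
    rwa [Nat.cast_zero, add_zero] at h2

end Pool.Agent.H.MP_ac3185_nt.HT
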