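import Pool.Agent.H.MP_ac3185_nt.helper16.Above

/-! Half of all pairs: the ranks over all Galois extensions above a monochromatic cube. -/

set_option autoImplicit false

open CategoryTheory AlgebraicGeometry NumberField IsDedekindDomain
open scoped MonObj symmDiff

namespace Pool.Agent.H.MP_ac3185_nt.HT

universe u

/-- PROOF. As `above_rank`: `above_subset` gives for every character a subset `J'`; the term is
`chiRank A (num (S ∆ cmb D (J ∆ J')))` (`cmb_symmDiff`), so all terms have the same parity, and the number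
of the characters is even (`even_card_chars`, `exists_char_of_quadratic`); compare
`rank_even_of_twist` (`U/Rank.lean`). -/
theorem mono_rank {K : Type u} [Field K] [CharZero K] {m : ℕ} (D : Fin m → Finset ℕ)
    (h0 : ∀ i, 0 ∉ D i) (S : Finset ℕ) (hS : 0 ∉ S) (A : Over (Spec (.of K))) [GrpObj A]
    [IsAbVar A]
    (hmono : (∀ J : Finset (Fin m), Even (chiRank A (num (S ∆ cmb D J)))) ∨
      ∀ J : Finset (Fin m), ¬ Even (chiRank A (num (S ∆ cmb D J))))
    (J : Finset (Fin m)) (B : Over (Spec (.of K))) [GrpObj B] [IsAbVar B]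
    (hAB : IsQuadTwist A B (num (S ∆ cmb D J)))
    (F : IntermediateField K (AlgebraicClosure K)) (hF : AboveTower (sqrtField K D) F) :
    Even (Module.rank ℤ (Pts B F)) := by
  classical
  obtain ⟨hfd0, hgal, hnil, hQ, hq⟩ := hF
  have hSJ : ∀ J : Finset (Fin m), 0 ∉ S ∆ cmb D J := by
    intro J h
    rcases Finset.mem_symmDiff.1 h with h2 | h2
    · exact hS h2.1
    · exact above_cmb D h0 J h2.1
  rcases lt_or_ge (Module.rank ℤ (Pts B F)) Cardinal.aleph0 with h1 | h1
  · obtain ⟨r, hr⟩ := Cardinal.lt_aleph0.1 h1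
    rw [hr]
    apply gt_even_nat
    have hfinG : Finite (F ≃ₐ[K] F) := inferInstance
    obtain ⟨M, _, _, ρ, hM, hε⟩ := exists_twistRep A B _ hAB F
    have hMr : Module.rank ℚ M = (r : Cardinal) := hM.trans hr
    have hfd : FiniteDimensional ℚ M := Module.rank_lt_aleph0_iff.1 (by
      rw [hMr]; exact Cardinal.natCast_lt_aleph0)
    have hMf : Module.finrank ℚ M = r := Module.finrank_eq_of_rank_eq hMr
    obtain ⟨N, hN, hodd, h2⟩ := hnil
    have hmod := finrank_two_nilpotent N hodd h2 ρ
    choose j hj using above_subset D F hq h0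
    have hfin : Finite ((F ≃ₐ[K] F) →* ℤˣ) := DFunLike.finite _
    have _ : Fintype ((F ≃ₐ[K] F) →* ℤˣ) := Fintype.ofFinite _
    rw [hMf, finsum_eq_sum_of_fintype] at hmod
    have h5 : ∀ ε : (F ≃ₐ[K] F) →* ℤˣ,
        Module.finrank ℚ (epsPart ρ ε) = chiRank A (num (S ∆ cmb D (J ∆ j ε))) := by
      intro ε
      have h6 := hε ε (num (S ∆ cmb D (J ∆ j ε))) (fun σ => by
        rw [hj, cmb_symmDiff, ← symmDiff_assoc, chi_num_symmDiff (hSJ J) (above_cmb D h0 (j ε)),
          MonoidHom.mul_apply, mul_comm])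
      unfold chiRank Module.finrank
      rw [h6]
    rw [Finset.sum_congr rfl fun ε _ => h5 ε] at hmod
    have hcard : Even (Fintype.card ((F ≃ₐ[K] F) →* ℤˣ)) := by
      rw [← Nat.card_eq_fintype_card]
      exact even_card_chars (exists_char_of_quadratic F hQ)
    obtain ⟨c, hc⟩ : ∃ c : ℕ, ∀ J : Finset (Fin m), chiRank A (num (S ∆ cmb D J)) ≡ c [MOD 2] := by
      rcases hmono with h | h
      · exact ⟨0, fun J => by
          have := h J
          rw [Nat.even_iff] at this
          exact this⟩
      · exact ⟨1, fun J => by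
          have := h J
          rw [Nat.not_even_iff] at this
          exact this⟩
    have h7 := hmod.trans (rank_modEq_sum Finset.univ _ (fun _ => c) fun ε _ => hc (J ∆ j ε))
    rw [Finset.sum_const, Finset.card_univ, smul_eq_mul] at h7
    have h8 : Even (Fintype.card ((F ≃ₐ[K] F) →* ℤˣ) * c) := hcard.mul_right c
    rw [Nat.even_iff] at h8 ⊢
    exact (show r % 2 = _ from h7).trans h8
  · have h2 := gt_even_infinite _ h1 0
    rwa [Nat.cast_zero, add_zero] at h2

end Pool.Agent.H.MP_ac3185_nt.HT
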