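import Pool.Agent.H.MP_ac3185_nt.helper16.Defs

/-! Half of all pairs: symmetric differences and square roots. -/

set_option autoImplicit false

open CategoryTheory AlgebraicGeometry NumberField IsDedekindDomain
open scoped MonObj symmDiff

namespace Pool.Agent.H.MP_ac3185_nt.HT

universe u

theorem cmb_empty {m : ℕ} (D : Fin m → Finset ℕ) : cmb D ∅ = ∅ := by
  unfold cmb
  rw [Finset.sum_empty]
  rfl

theorem cmb_insert {m : ℕ} (D : Fin m → Finset ℕ) (j : Fin m) (J : Finset (Fin m)) (h : j ∉ J) :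
    cmb D (insert j J) = D j ∆ cmb D J := by
  unfold cmb
  rw [Finset.sum_insert h]
  rfl

private theorem Cmb_add_self (x : AsBoolRing (Finset ℕ)) : x + x = 0 :=
  symmDiff_self (ofBoolRing x)

private theorem Cmb_sum {m : ℕ} (f : Fin m → AsBoolRing (Finset ℕ)) (J J' : Finset (Fin m)) :
    ∑ j ∈ J ∆ J', f j = ∑ j ∈ J, f j + ∑ j ∈ J', f j := by
  have h1 : J ∆ J' = (J \ J') ∪ (J' \ J) := rfl
  rw [h1, Finset.sum_union (Finset.disjoint_left.2 fun i hi hi' => by
    simp only [Finset.mem_sdiff] at hi hi'; exact hi.2 hi'.1)]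
  have h2 : ∑ i ∈ J, f i = ∑ i ∈ J \ J', f i + ∑ i ∈ J ∩ J', f i := by
    rw [← Finset.sum_union (Finset.disjoint_left.2 fun i hi hi' => by
      simp only [Finset.mem_sdiff, Finset.mem_inter] at hi hi'; exact hi.2 hi'.2)]
    congr 1
    ext i; simp only [Finset.mem_union, Finset.mem_sdiff, Finset.mem_inter]; tauto
  have h3 : ∑ i ∈ J', f i = ∑ i ∈ J' \ J, f i + ∑ i ∈ J ∩ J', f i := by
    rw [← Finset.sum_union (Finset.disjoint_left.2 fun i hi hi' => by
      simp only [Finset.mem_sdiff, Finset.mem_inter] at hi hi'; exact hi.2 hi'.1)]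
    congr 1
    ext i; simp only [Finset.mem_union, Finset.mem_sdiff, Finset.mem_inter]; tauto
  rw [h2, h3, add_add_add_comm, Cmb_add_self, add_zero]

/-- PROOF. In the Boolean ring `x + x = 0`: sum over `J ∆ J'`. -/
theorem cmb_symmDiff {m : ℕ} (D : Fin m → Finset ℕ) (J J' : Finset (Fin m)) :
    cmb D (J ∆ J') = cmb D J ∆ cmb D J' := by
  unfold cmb
  rw [Cmb_sum]
  rfl

/-- Properties which are stable under symmetric differences. -/
theorem cmb_induction {m : ℕ} (D : Fin m → Finset ℕ) (P : Finset ℕ → Prop) (h0 : P ∅)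
    (hs : ∀ S S', P S → P S' → P (S ∆ S')) (hD : ∀ i, P (D i)) (J : Finset (Fin m)) :
    P (cmb D J) := by
  induction J using Finset.induction_on with
  | empty =>
    rw [cmb_empty]
    exact h0
  | insert j J hj ih =>
    rw [cmb_insert D j J hj]
    exact hs _ _ (hD j) ih

/-- `num S * num S' = num (S ∆ S') * num (S ∩ S') ^ 2`. -/
theorem num_mul (S S' : Finset ℕ) : num S * num S' = num (S ∆ S') * num (S ∩ S') ^ 2 := by
  unfold num
  have h1 : S ∆ S' = (S \ S') ∪ (S' \ S) := rfl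
  rw [h1, Finset.prod_union (Finset.disjoint_left.2 fun i hi hi' => by
    simp only [Finset.mem_sdiff] at hi hi'; exact hi.2 hi'.1)]
  have h2 : ∏ i ∈ S, i = (∏ i ∈ S \ S', i) * ∏ i ∈ S ∩ S', i := by
    rw [← Finset.prod_union (Finset.disjoint_left.2 fun i hi hi' => by
      simp only [Finset.mem_sdiff, Finset.mem_inter] at hi hi'; exact hi.2 hi'.2)]
    congr 1
    ext i; simp only [Finset.mem_union, Finset.mem_sdiff, Finset.mem_inter]; tauto
  have h3 : ∏ i ∈ S', i = (∏ i ∈ S' \ S, i) * ∏ i ∈ S ∩ S', i := by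
    rw [← Finset.prod_union (Finset.disjoint_left.2 fun i hi hi' => by
      simp only [Finset.mem_sdiff, Finset.mem_inter] at hi hi'; exact hi.2 hi'.1)]
    congr 1
    ext i; simp only [Finset.mem_union, Finset.mem_sdiff, Finset.mem_inter]; tauto
  rw [h2, h3]
  ring

theorem nice_empty (N : ℕ) : Nice N ∅ := by
  exact ⟨1, by simp [num, Nat.ModEq]⟩

/-- PROOF. `num_mul`: if `b ^ 2 * num S ≡ 1`, `b' ^ 2 * num S' ≡ 1`, then `b b' num (S ∩ S')` is a
witness for `S ∆ S'`. -/
theorem nice_symmDiff {N : ℕ} {S S' : Finset ℕ} (h : Nice N S) (h' : Nice N S') :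
    Nice N (S ∆ S') := by
  obtain ⟨b, hb⟩ := h
  obtain ⟨b', hb'⟩ := h'
  refine ⟨b * b' * num (S ∩ S'), ?_⟩
  have h1 := hb.mul hb'
  have h2 : b ^ 2 * num S * (b' ^ 2 * num S') = (b * b' * num (S ∩ S')) ^ 2 * num (S ∆ S') := by
    have h3 := num_mul S S'
    calc b ^ 2 * num S * (b' ^ 2 * num S') = b ^ 2 * b' ^ 2 * (num S * num S') := by ring
      _ = _ := by rw [h3]; ring
  rwa [h2, mul_one] at h1

theorem niceSets_empty (N : ℕ) (T : Finset ℕ) : ∅ ∈ niceSets N T := by
  classical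
  unfold niceSets
  exact Finset.mem_filter.2 ⟨Finset.empty_mem_powerset _, nice_empty N⟩

theorem niceSets_symmDiff {N : ℕ} {T S S' : Finset ℕ} (h : S ∈ niceSets N T)
    (h' : S' ∈ niceSets N T) : S ∆ S' ∈ niceSets N T := by
  classical
  unfold niceSets at h h' ⊢
  rw [Finset.mem_filter] at h h' ⊢
  refine ⟨?_, nice_symmDiff h.2 h'.2⟩
  rw [Finset.mem_powerset]
  exact symmDiff_le_sup.trans (sup_le (Finset.mem_powerset.1 h.1) (Finset.mem_powerset.1 h'.1))

theorem powerset_symmDiff {T S S' : Finset ℕ} (h : S ∈ T.powerset)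
    (h' : S' ∈ T.powerset) : S ∆ S' ∈ T.powerset := by
  rw [Finset.mem_powerset] at h h' ⊢
  exact symmDiff_le_sup.trans (sup_le h h')

/-- PROOF. `num_mul`, `chi_mul`, and `chi (n ^ 2) = 1` (or `chi_symmDiff` for a modification of the
identity at zero). -/
theorem chi_num_symmDiff {K : Type u} [Field K] [CharZero K] {S S' : Finset ℕ}
    (h : 0 ∉ S) (h' : 0 ∉ S') : chi (K := K) (num (S ∆ S')) = chi (num S) * chi (num S') := by
  have key : ∀ R : Finset ℕ, 0 ∉ R → num R = ∏ i ∈ R, (if i = 0 then 1 else i) := by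
    intro R hR
    unfold num
    refine Finset.prod_congr rfl fun i hi => ?_
    rw [if_neg]
    rintro rfl
    exact hR hi
  have h0 : 0 ∉ S ∆ S' := by
    rw [Finset.mem_symmDiff]
    tauto
  rw [key _ h, key _ h', key _ h0]
  refine chi_symmDiff S S' (fun i => if i = 0 then 1 else i) fun i => ?_
  by_cases hi : i = 0
  · rw [if_pos hi]
    exact one_ne_zero
  · rw [if_neg hi]
    exact hi

/-- `chi (num S)` is trivial iff `num S` is a square in `K`. PROOF. `chi_eq_one_iff` and
`rank_mem_of_fixed` for the bottom field (`rt_sq`). -/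
theorem chi_num_eq_one {K : Type u} [Field K] [CharZero K] (S : Finset ℕ) :
    chi (K := K) (num S) = 1 ↔ ∃ x : K, x ^ 2 = (num S : K) := by
  constructor
  · intro h
    have h1 : rt K (num S) ∈ (⊥ : IntermediateField K (AlgebraicClosure K)) := by
      refine rank_mem_of_fixed ⊥ _ fun σ _ => ?_
      exact (chi_eq_one_iff (num S) σ _ (rt_sq K (num S))).1 (by rw [h, MonoidHom.one_apply])
    obtain ⟨x, hx⟩ := IntermediateField.mem_bot.1 h1
    refine ⟨x, (algebraMap K (AlgebraicClosure K)).injective ?_⟩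
    rw [map_pow, hx, rt_sq, map_natCast]
  · rintro ⟨x, hx⟩
    refine MonoidHom.ext fun σ => ?_
    rw [MonoidHom.one_apply]
    refine (chi_eq_one_iff (num S) σ (algebraMap K (AlgebraicClosure K) x) ?_).2 (σ.commutes x)
    rw [← map_pow, hx, map_natCast]

end Pool.Agent.H.MP_ac3185_nt.HT
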