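import Pool.Agent.H.MP_ac3185_nt.helper16.CombQ

/-! Half of all pairs: many monochromatic cubes. -/

set_option autoImplicit false

open scoped symmDiff

namespace Pool.Agent.H.MP_ac3185_nt.HT

open Finset

private theorem CombM_cmb_map {m : ℕ} (E : Finset ℕ) (D : Fin m → Finset ℕ) (J : Finset (Fin m)) :
    cmb (Fin.cons E D : Fin (m + 1) → Finset ℕ) (J.map (Fin.succEmb m)) = cmb D J := by
  unfold cmb
  rw [sum_map]
  rfl

private theorem CombM_cmb_insert {m : ℕ} (E : Finset ℕ) (D : Fin m → Finset ℕ)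
    (J : Finset (Fin m)) :
    cmb (Fin.cons E D : Fin (m + 1) → Finset ℕ) (insert 0 (J.map (Fin.succEmb m))) =
      E ∆ cmb D J := by
  have h0 : (0 : Fin (m + 1)) ∉ J.map (Fin.succEmb m) := by
    intro h
    obtain ⟨j, _, hj⟩ := mem_map.1 h
    exact Fin.succ_ne_zero j hj
  unfold cmb
  rw [sum_insert h0, sum_map]
  rfl

private theorem CombM_prod {m : ℕ} (F : Finset (Fin (m + 1)) → ℝ) :
    ∏ t ∈ ((univ : Finset (Fin m)).map (Fin.succEmb m)).powerset, F t =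
      ∏ J : Finset (Fin m), F (J.map (Fin.succEmb m)) := by
  symm
  refine prod_bij (fun J _ => J.map (Fin.succEmb m)) ?_ ?_ ?_ ?_
  · intro J _
    exact mem_powerset.2 (map_subset_map.2 (subset_univ J))
  · intro J _ J' _ h
    exact map_injective _ h
  · intro t ht
    obtain ⟨u, _, hu⟩ := subset_map_iff.1 (mem_powerset.1 ht)
    exact ⟨u, mem_univ u, hu.symm⟩
  · intro J _
    rfl

/-- PROOF. As `cube_cons` (`CombQ.lean`), the same for real functions. -/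
theorem cube_consR (f : Finset ℕ → ℝ) {m : ℕ} (E S : Finset ℕ) (D : Fin m → Finset ℕ) :
    ∏ J : Finset (Fin (m + 1)), f (S ∆ cmb (Fin.cons E D : Fin (m + 1) → Finset ℕ) J) =
      (∏ J : Finset (Fin m), f (S ∆ cmb D J)) * ∏ J : Finset (Fin m), f ((S ∆ E) ∆ cmb D J) := by
  have h0 : (0 : Fin (m + 1)) ∉ (univ : Finset (Fin m)).map (Fin.succEmb m) := by
    intro h
    obtain ⟨j, _, hj⟩ := mem_map.1 h
    exact Fin.succ_ne_zero j hj
  have hu : (univ : Finset (Finset (Fin (m + 1)))) =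
      (insert 0 ((univ : Finset (Fin m)).map (Fin.succEmb m))).powerset := by
    ext t
    simp only [mem_univ, mem_powerset, true_iff]
    intro x _
    rw [mem_insert, mem_map]
    rcases Fin.eq_zero_or_eq_succ x with h | ⟨j, h⟩
    · exact Or.inl h
    · exact Or.inr ⟨j, mem_univ j, h.symm⟩
  rw [hu, prod_powerset_insert h0, CombM_prod, CombM_prod]
  congr 1
  · refine prod_congr rfl fun J _ => ?_
    rw [CombM_cmb_map]
  · refine prod_congr rfl fun J _ => ?_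
    rw [CombM_cmb_insert, symmDiff_assoc]

/-- Sums over tuples. -/
private theorem CombM_pi (H : Finset (Finset ℕ)) (m : ℕ) (F : (Fin (m + 1) → Finset ℕ) → ℝ) :
    ∑ D ∈ Fintype.piFinset (fun _ : Fin (m + 1) => H), F D =
      ∑ E ∈ H, ∑ D ∈ Fintype.piFinset (fun _ : Fin m => H), F (Fin.cons E D) := by
  rw [← sum_product']
  symm
  refine sum_bij' (fun p _ => (Fin.cons p.1 p.2 : Fin (m + 1) → Finset ℕ))
    (fun D _ => (D 0, Fin.tail D)) ?_ ?_ ?_ ?_ ?_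
  · intro p hp
    rw [mem_product, Fintype.mem_piFinset] at hp
    rw [Fintype.mem_piFinset]
    intro i
    refine Fin.cases ?_ (fun j => ?_) i
    · exact hp.1
    · exact hp.2 j
  · intro D hD
    rw [Fintype.mem_piFinset] at hD
    rw [mem_product, Fintype.mem_piFinset]
    exact ⟨hD 0, fun i => hD i.succ⟩
  · intro p _
    rfl
  · intro D _
    exact Fin.cons_self_tail D
  · intro p _
    rfl

/-- Cubes in one coset of `H`.
PROOF. Induction on `m` for all `g`. `m = 0`: equality. Step: with `g_E x = g x * g (x ∆ E)` the sum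
over `D = cons E D'` is `∑ E ∈ H, (the sum for m and g_E)` (`cube_consR`), so by induction and
`pow_sum_div_card_le_sum_pow` (power mean inequality, exponent `2 ^ m`) it is bounded below by the
power of `∑ E ∈ H, ∑ E' ∈ H, g (S ∆ E') * g (S ∆ E' ∆ E) = (∑ E ∈ H, g (S ∆ E)) ^ 2` (replace `E` by
`E' ∆ E`, a bijection of `H`). With `h = card H`:
`Q_{m+1} h ^ (2 ^ m) ≥ h ^ (m + 1) * (∑ g) ^ (2 * 2 ^ m) / h ^ (2 ^ m - 1)`. -/
theorem coset_cubes (H : Finset (Finset ℕ)) (h0 : ∅ ∈ H) (hH : ∀ E ∈ H, ∀ E' ∈ H, E ∆ E' ∈ H)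
    (S : Finset ℕ) (m : ℕ) (g : Finset ℕ → ℝ) (hg : ∀ x, 0 ≤ g x) :
    (∑ E ∈ H, g (S ∆ E)) ^ (2 ^ m) * (H.card : ℝ) ^ (m + 1) ≤
      (∑ E ∈ H, ∑ D ∈ Fintype.piFinset (fun _ : Fin m => H),
        ∏ J : Finset (Fin m), g ((S ∆ E) ∆ cmb D J)) * (H.card : ℝ) ^ (2 ^ m) := by
  have hcard : 0 < (H.card : ℝ) := by
    have : 0 < H.card := card_pos.2 ⟨∅, h0⟩
    exact_mod_cast this
  induction m generalizing g with
  | zero =>
    rw [pow_zero, pow_one, zero_add, pow_one]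
    refine le_of_eq ?_
    congr 1
    refine sum_congr rfl fun E _ => ?_
    have h1 : Fintype.piFinset (fun _ : Fin 0 => H) = {(fun i => i.elim0 : Fin 0 → Finset ℕ)} := by
      ext D
      rw [Fintype.mem_piFinset, mem_singleton]
      exact ⟨fun _ => funext fun i => i.elim0, fun _ i => i.elim0⟩
    have h2 : (univ : Finset (Finset (Fin 0))) = {∅} := by
      ext J
      rw [mem_singleton]
      exact ⟨fun _ => Finset.eq_empty_of_isEmpty J, fun _ => mem_univ _⟩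
    rw [h1, sum_singleton, h2, prod_singleton, cmb_empty]
    congr 1
    ext x
    simp [mem_symmDiff]
  | succ m ih =>
    obtain ⟨h, hh⟩ : ∃ h : ℝ, h = (H.card : ℝ) := ⟨_, rfl⟩
    rw [← hh] at hcard ih ⊢
    obtain ⟨G, hG⟩ : ∃ G : ℝ, G = ∑ E ∈ H, g (S ∆ E) := ⟨_, rfl⟩
    rw [← hG]
    -- the functions `g x * g (x ∆ E)`
    have hQ : ∑ E ∈ H, ∑ D ∈ Fintype.piFinset (fun _ : Fin (m + 1) => H),
        ∏ J : Finset (Fin (m + 1)), g ((S ∆ E) ∆ cmb D J) =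
        ∑ E₁ ∈ H, ∑ E ∈ H, ∑ D ∈ Fintype.piFinset (fun _ : Fin m => H),
          ∏ J : Finset (Fin m), (g ((S ∆ E) ∆ cmb D J) * g (((S ∆ E) ∆ cmb D J) ∆ E₁)) := by
      rw [sum_comm (s := H) (t := H)]
      refine sum_congr rfl fun E _ => ?_
      rw [CombM_pi]
      refine sum_congr rfl fun E₁ _ => sum_congr rfl fun D _ => ?_
      rw [cube_consR, ← prod_mul_distrib]
      refine prod_congr rfl fun J _ => ?_
      rw [symmDiff_right_comm (S ∆ E) E₁ (cmb D J)]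
    have hI : ∀ E₁ ∈ H, (∑ E ∈ H, g (S ∆ E) * g ((S ∆ E) ∆ E₁)) ^ (2 ^ m) * h ^ (m + 1) ≤
        (∑ E ∈ H, ∑ D ∈ Fintype.piFinset (fun _ : Fin m => H),
          ∏ J : Finset (Fin m), (g ((S ∆ E) ∆ cmb D J) * g (((S ∆ E) ∆ cmb D J) ∆ E₁))) *
          h ^ (2 ^ m) := fun E₁ _ =>
      ih (fun x => g x * g (x ∆ E₁)) fun x => mul_nonneg (hg _) (hg _)
    have hGG : ∑ E₁ ∈ H, ∑ E ∈ H, g (S ∆ E) * g ((S ∆ E) ∆ E₁) = G ^ 2 := by
      rw [sum_comm, hG, sq, sum_mul_sum]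
      refine sum_congr rfl fun E hE => ?_
      refine sum_nbij' (fun E₁ => E ∆ E₁) (fun E₁ => E ∆ E₁) (fun E₁ hE₁ => hH E hE E₁ hE₁)
        (fun E₁ hE₁ => hH E hE E₁ hE₁) (fun E₁ _ => symmDiff_symmDiff_cancel_left E E₁)
        (fun E₁ _ => symmDiff_symmDiff_cancel_left E E₁) ?_
      intro E₁ _
      rw [symmDiff_assoc]
    obtain ⟨n, hn⟩ : ∃ n, 2 ^ m = n + 1 := ⟨2 ^ m - 1, by have := Nat.one_le_two_pow (n := m); omega⟩
    have hP : (G ^ 2) ^ (n + 1) / h ^ n ≤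
        ∑ E₁ ∈ H, (∑ E ∈ H, g (S ∆ E) * g ((S ∆ E) ∆ E₁)) ^ (n + 1) := by
      rw [← hGG, hh]
      exact pow_sum_div_card_le_sum_pow (fun E₁ _ => sum_nonneg fun E _ => mul_nonneg (hg _) (hg _)) n
    rw [hQ]
    obtain ⟨Q, hQ'⟩ : ∃ Q : ℝ, Q = ∑ E₁ ∈ H, ∑ E ∈ H, ∑ D ∈ Fintype.piFinset (fun _ : Fin m => H),
          ∏ J : Finset (Fin m), (g ((S ∆ E) ∆ cmb D J) * g (((S ∆ E) ∆ cmb D J) ∆ E₁)) := ⟨_, rfl⟩
    rw [← hQ']
    have h1 : (∑ E₁ ∈ H, (∑ E ∈ H, g (S ∆ E) * g ((S ∆ E) ∆ E₁)) ^ (2 ^ m)) * h ^ (m + 1) ≤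
        Q * h ^ (2 ^ m) := by
      rw [hQ', sum_mul, sum_mul]
      exact sum_le_sum hI
    rw [hn] at h1
    have h2 : (G ^ 2) ^ (n + 1) / h ^ n * h ^ (m + 1) ≤ Q * h ^ (n + 1) :=
      (mul_le_mul_of_nonneg_right hP (by positivity)).trans h1
    have h3 : (G ^ 2) ^ (n + 1) * h ^ (m + 1) ≤ Q * h ^ (n + 1) * h ^ n := by
      have h4 := mul_le_mul_of_nonneg_right h2 (pow_nonneg hcard.le n)
      have h5 : (G ^ 2) ^ (n + 1) / h ^ n * h ^ (m + 1) * h ^ n = (G ^ 2) ^ (n + 1) * h ^ (m + 1) := by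
        have : h ^ n ≠ 0 := (pow_pos hcard n).ne'
        field_simp
      rw [h5] at h4
      exact h4
    have h6 := mul_le_mul_of_nonneg_right h3 hcard.le
    have e1 : 2 ^ (m + 1) = 2 * (n + 1) := by
      rw [pow_succ, hn]
      ring
    rw [e1]
    calc G ^ (2 * (n + 1)) * h ^ (m + 1 + 1) = (G ^ 2) ^ (n + 1) * h ^ (m + 1) * h := by
          rw [pow_mul, pow_succ h (m + 1)]
          ring
      _ ≤ Q * h ^ (n + 1) * h ^ n * h := h6
      _ = Q * h ^ (2 * (n + 1)) := by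
          ring

open Classical in
private theorem CombM_ind {m : ℕ} (P : Finset ℕ → Prop) (S : Finset ℕ) (D : Fin m → Finset ℕ) :
    (∏ J : Finset (Fin m), (if P (S ∆ cmb D J) then (1 : ℝ) else 0)) +
      ∏ J : Finset (Fin m), (if ¬ P (S ∆ cmb D J) then (1 : ℝ) else 0) =
      if (∀ J : Finset (Fin m), P (S ∆ cmb D J)) ∨ (∀ J : Finset (Fin m), ¬ P (S ∆ cmb D J))
        then 1 else 0 := by
  have key : ∀ (R : Finset (Fin m) → Prop) [DecidablePred R],
      (∏ J : Finset (Fin m), (if R J then (1 : ℝ) else 0)) = if ∀ J, R J then 1 else 0 := by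
    intro R _
    by_cases h : ∀ J, R J
    · rw [if_pos h]
      exact prod_eq_one fun J _ => if_pos (h J)
    · rw [if_neg h]
      push Not at h
      obtain ⟨J, hJ⟩ := h
      exact prod_eq_zero (mem_univ J) (if_neg hJ)
  rw [key (fun J => P (S ∆ cmb D J)), key (fun J => ¬ P (S ∆ cmb D J))]
  by_cases h1 : ∀ J : Finset (Fin m), P (S ∆ cmb D J)
  · have h2 : ¬ ∀ J : Finset (Fin m), ¬ P (S ∆ cmb D J) := fun h => h ∅ (h1 ∅)
    rw [if_pos h1, if_neg h2, if_pos (Or.inl h1), add_zero]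
  · by_cases h2 : ∀ J : Finset (Fin m), ¬ P (S ∆ cmb D J)
    · rw [if_neg h1, if_pos h2, if_pos (Or.inr h2), zero_add]
    · rw [if_neg h1, if_neg h2, if_neg (not_or.2 ⟨h1, h2⟩), add_zero]

open Classical in
/-- Monochromatic cubes.
PROOF. `coset_cubes` for the indicator functions `g` of `P` and of its complement; with
`a + b = card H` the sums of these functions over a coset, `a ^ n + b ^ n ≥ 2 * ((a + b) / 2) ^ n`
(`n = 2 ^ m`; `inner_le...`, `add_pow_le_pow_mul_pow_of_add_eq_one` or `pow_sum_div_card_le_sum_pow` with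
two summands). The product of `g` over a cube is `1` if the cube has this color and `0` otherwise. Sum
over `S ∈ C`: every pair `(S ∆ E, D)` is counted `card H` times (`S ↦ S ∆ E` is a bijection of `C`). The
two cases exclude each other (`J = ∅`). -/
theorem mono_cubes (C H : Finset (Finset ℕ)) (hC : ∀ S ∈ C, ∀ E ∈ H, S ∆ E ∈ C) (h0 : ∅ ∈ H)
    (hH : ∀ E ∈ H, ∀ E' ∈ H, E ∆ E' ∈ H) (P : Finset ℕ → Prop) (m : ℕ) :
    C.card * H.card ^ m ≤ 2 ^ (2 ^ m - 1) *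
      ((C ×ˢ Fintype.piFinset (fun _ : Fin m => H)).filter
        (fun p => (∀ J : Finset (Fin m), P (p.1 ∆ cmb p.2 J)) ∨
          (∀ J : Finset (Fin m), ¬ P (p.1 ∆ cmb p.2 J)))).card := by
  have hinv : ∀ S E : Finset ℕ, (S ∆ E) ∆ E = S := fun S E => symmDiff_symmDiff_cancel_right E S
  have hcard : 0 < (H.card : ℝ) := by
    have : 0 < H.card := card_pos.2 ⟨∅, h0⟩
    exact_mod_cast this
  obtain ⟨M, hM⟩ : ∃ M : Finset ℕ → ℝ, M = fun S => ∑ D ∈ Fintype.piFinset (fun _ : Fin m => H),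
      if (∀ J : Finset (Fin m), P (S ∆ cmb D J)) ∨ (∀ J : Finset (Fin m), ¬ P (S ∆ cmb D J))
        then (1 : ℝ) else 0 := ⟨_, rfl⟩
  obtain ⟨n, hn⟩ : ∃ n, 2 ^ m = n + 1 := ⟨2 ^ m - 1, by have := Nat.one_le_two_pow (n := m); omega⟩
  -- one coset
  have h1 : ∀ S ∈ C, (H.card : ℝ) ^ (m + 1) ≤ 2 ^ n * ∑ E ∈ H, M (S ∆ E) := by
    intro S _
    have g1 := coset_cubes H h0 hH S m (fun x => if P x then 1 else 0) fun x => by
      split_ifs <;> norm_num
    have g2 := coset_cubes H h0 hH S m (fun x => if ¬ P x then 1 else 0) fun x => by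
      split_ifs <;> norm_num
    obtain ⟨a, ha⟩ : ∃ a : ℝ, a = ∑ E ∈ H, (if P (S ∆ E) then (1 : ℝ) else 0) := ⟨_, rfl⟩
    obtain ⟨b, hb⟩ : ∃ b : ℝ, b = ∑ E ∈ H, (if ¬ P (S ∆ E) then (1 : ℝ) else 0) := ⟨_, rfl⟩
    have ha0 : 0 ≤ a := by
      rw [ha]
      exact sum_nonneg fun E _ => by split_ifs <;> norm_num
    have hb0 : 0 ≤ b := by
      rw [hb]
      exact sum_nonneg fun E _ => by split_ifs <;> norm_num
    have hab : a + b = (H.card : ℝ) := by
      rw [ha, hb, ← sum_add_distrib]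
      have : ∀ E ∈ H, (if P (S ∆ E) then (1 : ℝ) else 0) + (if ¬ P (S ∆ E) then 1 else 0) = 1 := by
        intro E _
        by_cases h : P (S ∆ E)
        · rw [if_pos h, if_neg (not_not.2 h), add_zero]
        · rw [if_neg h, if_pos h, zero_add]
      rw [sum_congr rfl this, sum_const, nsmul_eq_mul, mul_one]
    rw [← ha] at g1
    rw [← hb] at g2
    have g3 : (a ^ (2 ^ m) + b ^ (2 ^ m)) * (H.card : ℝ) ^ (m + 1) ≤
        (∑ E ∈ H, M (S ∆ E)) * (H.card : ℝ) ^ (2 ^ m) := by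
      rw [add_mul]
      refine (add_le_add g1 g2).trans (le_of_eq ?_)
      rw [← add_mul, ← sum_add_distrib]
      congr 1
      refine sum_congr rfl fun E _ => ?_
      rw [hM, ← sum_add_distrib]
      refine sum_congr rfl fun D _ => ?_
      exact CombM_ind P (S ∆ E) D
    have g4 : (H.card : ℝ) ^ (n + 1) ≤ 2 ^ n * (a ^ (n + 1) + b ^ (n + 1)) := by
      rw [← hab]
      have g5 := add_pow_le ha0 hb0 (n + 1)
      rwa [Nat.add_sub_cancel] at g5
    rw [hn] at g3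
    have g6 : (H.card : ℝ) ^ (n + 1) * (H.card : ℝ) ^ (m + 1) ≤
        2 ^ n * ((∑ E ∈ H, M (S ∆ E)) * (H.card : ℝ) ^ (n + 1)) := by
      calc (H.card : ℝ) ^ (n + 1) * (H.card : ℝ) ^ (m + 1)
          ≤ 2 ^ n * (a ^ (n + 1) + b ^ (n + 1)) * (H.card : ℝ) ^ (m + 1) :=
            mul_le_mul_of_nonneg_right g4 (by positivity)
        _ = 2 ^ n * ((a ^ (n + 1) + b ^ (n + 1)) * (H.card : ℝ) ^ (m + 1)) := by ring
        _ ≤ _ := mul_le_mul_of_nonneg_left g3 (by positivity)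
    have g7 : (H.card : ℝ) ^ (n + 1) * (H.card : ℝ) ^ (m + 1) ≤
        (H.card : ℝ) ^ (n + 1) * (2 ^ n * ∑ E ∈ H, M (S ∆ E)) := by
      refine g6.trans (le_of_eq ?_)
      ring
    exact le_of_mul_le_mul_left g7 (pow_pos hcard _)
  -- all cosets
  have h2 : ∑ S ∈ C, ∑ E ∈ H, M (S ∆ E) = (H.card : ℝ) * ∑ S ∈ C, M S := by
    rw [sum_comm]
    have : ∀ E ∈ H, ∑ S ∈ C, M (S ∆ E) = ∑ S ∈ C, M S := by
      intro E hE
      refine sum_nbij' (fun S => S ∆ E) (fun S => S ∆ E) (fun S hS => hC S hS E hE)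
        (fun S hS => hC S hS E hE) (fun S _ => hinv S E) (fun S _ => hinv S E) ?_
      intro S _
      rfl
    rw [sum_congr rfl this, sum_const, nsmul_eq_mul]
  have h3 : (C.card : ℝ) * (H.card : ℝ) ^ (m + 1) ≤ 2 ^ n * ((H.card : ℝ) * ∑ S ∈ C, M S) := by
    rw [← h2, mul_sum, ← nsmul_eq_mul, ← sum_const]
    exact sum_le_sum h1
  have h4 : (H.card : ℝ) * ((C.card : ℝ) * (H.card : ℝ) ^ m) ≤
      (H.card : ℝ) * (2 ^ n * ∑ S ∈ C, M S) := by
    calc (H.card : ℝ) * ((C.card : ℝ) * (H.card : ℝ) ^ m)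
        = (C.card : ℝ) * (H.card : ℝ) ^ (m + 1) := by ring
      _ ≤ _ := h3
      _ = _ := by ring
  have h5 := le_of_mul_le_mul_left h4 hcard
  have h6 : (((C ×ˢ Fintype.piFinset (fun _ : Fin m => H)).filter
        (fun p => (∀ J : Finset (Fin m), P (p.1 ∆ cmb p.2 J)) ∨
          (∀ J : Finset (Fin m), ¬ P (p.1 ∆ cmb p.2 J)))).card : ℝ) = ∑ S ∈ C, M S := by
    rw [card_filter, Nat.cast_sum, sum_product, hM]
    refine sum_congr rfl fun S _ => sum_congr rfl fun D _ => ?_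
    split_ifs
    · exact Nat.cast_one
    · exact Nat.cast_zero
  rw [← h6] at h5
  rw [show 2 ^ m - 1 = n by omega]
  exact_mod_cast h5

end Pool.Agent.H.MP_ac3185_nt.HT
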