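import Pool.Agent.H.MP_ac3185_nt.helper16.CombQ

/-! Half of all pairs: positivity of the cube sums. -/

set_option autoImplicit false

open scoped symmDiff

namespace Pool.Agent.H.MP_ac3185_nt.HT

open Finset

/-- PROOF. Write `D = cons E D'` (`Fin.consEquiv`, or `Fintype.piFinset` and `Fin.cons`), use
`cube_cons`, exchange the sums and apply `pair_pos` for every `D'`. -/
theorem cube_pos (C H : Finset (Finset ℕ)) (hC : ∀ S ∈ C, ∀ E ∈ H, S ∆ E ∈ C) (h0 : ∅ ∈ H)
    (hH : ∀ E ∈ H, ∀ E' ∈ H, E ∆ E' ∈ H) (f : Finset ℕ → ℤ) (m : ℕ) (hm : 1 ≤ m) :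
    0 ≤ ∑ p ∈ C ×ˢ Fintype.piFinset (fun _ : Fin m => H),
      ∏ J : Finset (Fin m), f (p.1 ∆ cmb p.2 J) := by
  obtain ⟨k, rfl⟩ : ∃ k, m = k + 1 := ⟨m - 1, by omega⟩
  rw [Finset.sum_product]
  have key : ∀ S : Finset ℕ, ∑ D ∈ Fintype.piFinset (fun _ : Fin (k + 1) => H),
      ∏ J : Finset (Fin (k + 1)), f (S ∆ cmb D J) =
      ∑ D' ∈ Fintype.piFinset (fun _ : Fin k => H), ∑ E ∈ H,
        (∏ J : Finset (Fin k), f (S ∆ cmb D' J)) *
          ∏ J : Finset (Fin k), f ((S ∆ E) ∆ cmb D' J) := by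
    intro S
    rw [← Finset.sum_product']
    symm
    refine Finset.sum_nbij'
      (fun p => (Fin.cons p.2 p.1 : Fin (k + 1) → Finset ℕ)) (fun D => (Fin.tail D, D 0))
      ?_ ?_ ?_ ?_ ?_
    · intro p hp
      rw [Finset.mem_product, Fintype.mem_piFinset] at hp
      rw [Fintype.mem_piFinset]
      intro i
      refine Fin.cases ?_ (fun j => ?_) i
      · simpa using hp.2
      · simpa using hp.1 j
    · intro D hD
      rw [Fintype.mem_piFinset] at hD
      rw [Finset.mem_product, Fintype.mem_piFinset]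
      exact ⟨fun j => hD j.succ, hD 0⟩
    · intro p _
      simp
    · intro D _
      simp
    · intro p _
      exact (cube_cons f p.2 S p.1).symm
  rw [Finset.sum_congr rfl fun S _ => key S, Finset.sum_comm]
  exact Finset.sum_nonneg fun D' _ =>
    pair_pos C H hC h0 hH fun S => ∏ J : Finset (Fin k), f (S ∆ cmb D' J)

/-- PROOF. `cube_pos` for `f S = (-1) ^ e S`: the summand is `1` or `-1` according to the parity of
the sum, so the number of the even ones is at least the number of the odd ones; all together there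
are `card C * card H ^ m`. -/
theorem cube_half (C H : Finset (Finset ℕ)) (hC : ∀ S ∈ C, ∀ E ∈ H, S ∆ E ∈ C) (h0 : ∅ ∈ H)
    (hH : ∀ E ∈ H, ∀ E' ∈ H, E ∆ E' ∈ H) (e : Finset ℕ → ℕ) (m : ℕ) (hm : 1 ≤ m) :
    C.card * H.card ^ m ≤ 2 * ((C ×ˢ Fintype.piFinset (fun _ : Fin m => H)).filter
      (fun p => Even (∑ J : Finset (Fin m), e (p.1 ∆ cmb p.2 J)))).card := by
  have h := cube_pos C H hC h0 hH (fun S => (-1) ^ e S) m hm
  have h1 : (C ×ˢ Fintype.piFinset (fun _ : Fin m => H)).card = C.card * H.card ^ m := by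
    rw [Finset.card_product, Fintype.card_piFinset_const]
  rw [← h1]
  simp only [Finset.prod_pow_eq_pow_sum] at h
  have h2 := Finset.card_filter_add_card_filter_not (s := C ×ˢ Fintype.piFinset (fun _ : Fin m => H))
    (fun p : Finset ℕ × (Fin m → Finset ℕ) => Even (∑ J : Finset (Fin m), e (p.1 ∆ cmb p.2 J)))
  have h3 : ∀ p : Finset ℕ × (Fin m → Finset ℕ),
      (-1 : ℤ) ^ (∑ J : Finset (Fin m), e (p.1 ∆ cmb p.2 J)) =
        if Even (∑ J : Finset (Fin m), e (p.1 ∆ cmb p.2 J)) then 1 else -1 := by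
    intro p
    split_ifs with hp
    · exact hp.neg_one_pow
    · exact (Nat.not_even_iff_odd.mp hp).neg_one_pow
  rw [Finset.sum_congr rfl fun p _ => h3 p, Finset.sum_ite, Finset.sum_const, Finset.sum_const] at h
  simp only [nsmul_eq_mul, mul_one, mul_neg] at h
  omega

end Pool.Agent.H.MP_ac3185_nt.HT
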