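import Pool.Agent.H.MP_ac3185_nt.helper16.Cmb

/-! Half of all pairs: positivity of the cube sums. -/

set_option autoImplicit false

open scoped symmDiff

namespace Pool.Agent.H.MP_ac3185_nt.HT

open Finset

private theorem CombQ_cmb_map {m : ℕ} (E : Finset ℕ) (D : Fin m → Finset ℕ) (J : Finset (Fin m)) :
    cmb (Fin.cons E D : Fin (m + 1) → Finset ℕ) (J.map (Fin.succEmb m)) = cmb D J := by
  unfold cmb
  rw [sum_map]
  rfl

private theorem CombQ_cmb_insert {m : ℕ} (E : Finset ℕ) (D : Fin m → Finset ℕ)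
    (J : Finset (Fin m)) :
    cmb (Fin.cons E D : Fin (m + 1) → Finset ℕ) (insert 0 (J.map (Fin.succEmb m))) =
      E ∆ cmb D J := by
  have h0 : (0 : Fin (m + 1)) ∉ J.map (Fin.succEmb m) := by
    intro h
    obtain ⟨j, _, hj⟩ := mem_map.1 h
    exact Fin.succ_ne_zero j hj
  unfold cmb
  rw [sum_insert h0, sum_map]
  rfl

private theorem CombQ_prod {m : ℕ} (F : Finset (Fin (m + 1)) → ℤ) :
    ∏ t ∈ ((univ : Finset (Fin m)).map (Fin.succEmb m)).powerset, F t =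
      ∏ J : Finset (Fin m), F (J.map (Fin.succEmb m)) := by
  symm
  refine prod_bij (fun J _ => J.map (Fin.succEmb m)) ?_ ?_ ?_ ?_
  · intro J _
    exact mem_powerset.2 (map_subset_map.2 (subset_univ J))
  · intro J _ J' _ h
    exact map_injective _ h
  · intro t ht
    obtain ⟨u, _, hu⟩ := subset_map_iff.1 (mem_powerset.1 ht)
    exact ⟨u, mem_univ u, hu.symm⟩
  · intro J _
    rfl

/-- PROOF. Subsets of `Fin (m+1)` are `J.map succ` and `insert 0 (J.map succ)`, `J ⊆ Fin m`;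
`cmb (cons E D) (J.map succ) = cmb D J`, `cmb (cons E D) (insert 0 (J.map succ)) = E ∆ cmb D J`. -/
theorem cube_cons (f : Finset ℕ → ℤ) {m : ℕ} (E S : Finset ℕ) (D : Fin m → Finset ℕ) :
    ∏ J : Finset (Fin (m + 1)), f (S ∆ cmb (Fin.cons E D : Fin (m + 1) → Finset ℕ) J) =
      (∏ J : Finset (Fin m), f (S ∆ cmb D J)) * ∏ J : Finset (Fin m), f ((S ∆ E) ∆ cmb D J) := by
  have h0 : (0 : Fin (m + 1)) ∉ (univ : Finset (Fin m)).map (Fin.succEmb m) := by
    intro h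
    obtain ⟨j, _, hj⟩ := mem_map.1 h
    exact Fin.succ_ne_zero j hj
  have hu : (univ : Finset (Finset (Fin (m + 1)))) =
      (insert 0 ((univ : Finset (Fin m)).map (Fin.succEmb m))).powerset := by
    ext t
    simp only [mem_univ, mem_powerset, true_iff]
    intro x _
    rw [mem_insert, mem_map]
    rcases Fin.eq_zero_or_eq_succ x with h | ⟨j, h⟩
    · exact Or.inl h
    · exact Or.inr ⟨j, mem_univ j, h.symm⟩
  rw [hu, prod_powerset_insert h0, CombQ_prod, CombQ_prod]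
  congr 1
  · refine prod_congr rfl fun J _ => ?_
    rw [CombQ_cmb_map]
  · refine prod_congr rfl fun J _ => ?_
    rw [CombQ_cmb_insert, symmDiff_assoc]

/-- PROOF. For `E' ∈ H` replace `S` by `S ∆ E'` (a bijection of `C`) and `E` by `E ∆ E'` (a bijection
of `H`): the sum is `∑ S, ∑ E, g (S ∆ E') * g (S ∆ E)`. Sum over `E'`: `card H` times the sum is
`∑ S, (∑ E, g (S ∆ E)) ^ 2`. -/
theorem pair_pos (C H : Finset (Finset ℕ)) (hC : ∀ S ∈ C, ∀ E ∈ H, S ∆ E ∈ C) (h0 : ∅ ∈ H)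
    (hH : ∀ E ∈ H, ∀ E' ∈ H, E ∆ E' ∈ H) (g : Finset ℕ → ℤ) :
    0 ≤ ∑ S ∈ C, ∑ E ∈ H, g S * g (S ∆ E) := by
  have hinv : ∀ S E : Finset ℕ, (S ∆ E) ∆ E = S := fun S E => symmDiff_symmDiff_cancel_right E S
  -- for one element of `H`
  have h1 : ∀ E' ∈ H, ∑ S ∈ C, ∑ E ∈ H, g S * g (S ∆ E) =
      ∑ S ∈ C, ∑ E ∈ H, g (S ∆ E') * g (S ∆ E) := by
    intro E' hE'
    have h2 : ∑ S ∈ C, ∑ E ∈ H, g S * g (S ∆ E) =
        ∑ S ∈ C, ∑ E ∈ H, g (S ∆ E') * g ((S ∆ E') ∆ E) := by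
      refine sum_nbij' (fun S => S ∆ E') (fun S => S ∆ E') (fun S hS => hC S hS E' hE')
        (fun S hS => hC S hS E' hE') (fun S _ => hinv S E') (fun S _ => hinv S E') ?_
      intro S _
      rw [hinv]
    rw [h2]
    refine sum_congr rfl fun S _ => ?_
    refine sum_nbij' (fun E => E ∆ E') (fun E => E ∆ E') (fun E hE => hH E hE E' hE')
      (fun E hE => hH E hE E' hE') (fun E _ => hinv E E') (fun E _ => hinv E E') ?_
    intro E _
    rw [symmDiff_assoc, symmDiff_comm E' E]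
  -- the sum over `H`
  have h3 : (H.card : ℤ) * ∑ S ∈ C, ∑ E ∈ H, g S * g (S ∆ E) =
      ∑ S ∈ C, (∑ E ∈ H, g (S ∆ E)) ^ 2 := by
    calc (H.card : ℤ) * ∑ S ∈ C, ∑ E ∈ H, g S * g (S ∆ E)
        = ∑ E' ∈ H, ∑ S ∈ C, ∑ E ∈ H, g (S ∆ E') * g (S ∆ E) := by
          rw [← sum_congr rfl h1, sum_const, nsmul_eq_mul]
      _ = ∑ S ∈ C, (∑ E ∈ H, g (S ∆ E)) ^ 2 := by
          rw [sum_comm]
          refine sum_congr rfl fun S _ => ?_
          rw [sq, sum_mul_sum]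
  have h4 : 0 < (H.card : ℤ) := by
    have : 0 < H.card := card_pos.2 ⟨∅, h0⟩
    exact_mod_cast this
  have h5 : 0 ≤ ∑ S ∈ C, (∑ E ∈ H, g (S ∆ E)) ^ 2 := sum_nonneg fun _ _ => sq_nonneg _
  rw [← h3] at h5
  exact nonneg_of_mul_nonneg_right h5 h4

end Pool.Agent.H.MP_ac3185_nt.HT
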