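import Pool.Agent.H.MP_ac3185_nt.W.Twist

/-!
# Half of all pairs: definitions

THEOREM. Let `A` be an abelian variety over a number field `K`. There is `N > 0` such that for every
finite set `T` of prime numbers and every `m ≥ 1`: let `d` run through all squarefree positive numbers
with prime factors in `T`, and `D 0, ..., D (m-1)` through those which are squares modulo `8 N` (and
prime to it). If `F = K(√(D 0), ..., √(D (m-1)))` has degree `2 ^ m`, the global root number of the
quadratic twist of `A` by `d` over `F` is `1`, and for at least half of all `(d, D 0, ..., D (m-1))`
(up to an error term of lower order) the rank of this twist over `F` is even.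

PROOF. Numbers are represented by their sets of prime factors (`num S = ∏ S`), multiplication modulo
squares is the symmetric difference.
(1) RANKS. `e S = chiRank A (num S)` is the rank of the twist of `A` by `num S` over `K`. The rank of the
twist by `num S` over `F` is congruent modulo `2` to the sum of `e (S ∆ cmb D J)` over all subsets `J` of
`{0, ..., m-1}` (`Rank.lean`).
(2) ROOT NUMBERS. Places above `2 N` and infinite places: even numbers of conjugate places of `F`.
Other places `v`, `d = num S`, `E = num (D i)`, `√E` not in `K`: if `v ∣ E`, then inertia over `F` acts
trivially on `√d` (if `v ∣ d` because it acts trivially on `√(d E / p ^ 2)`): good reduction. If `v ∤ E`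
and `E` is a square modulo `v`: an even number of conjugate places. If `E` is not a square modulo `v`:
`-1` is a square in the residue fields of `F` above `v`, and the sign is `1` (`RootC.lean`, `Root.lean`).
(3) POSITIVITY. With `f = (-1) ^ e` the sum of `∏_J f (S ∆ cmb D J)` over all `S`, `D` is not negative
(it is a sum of squares, `CombP.lean`), so at least half of the sums in (1) are even.
-/

set_option autoImplicit false

open CategoryTheory AlgebraicGeometry NumberField IsDedekindDomain
open scoped MonObj symmDiff

namespace Pool.Agent.H.MP_ac3185_nt.HT

universe u

/-- The squarefree number with the set `S` of prime factors. -/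
def num (S : Finset ℕ) : ℕ := ∏ q ∈ S, q

/-- `num S` is prime to `8 N` and a square modulo `8 N`. -/
def Nice (N : ℕ) (S : Finset ℕ) : Prop := ∃ b : ℕ, b ^ 2 * num S ≡ 1 [MOD 8 * N]

open Classical in
/-- The subsets `S` of `T` for which `num S` is prime to `8 N` and a square modulo `8 N`. -/
noncomputable def niceSets (N : ℕ) (T : Finset ℕ) : Finset (Finset ℕ) :=
  T.powerset.filter (Nice N)

/-- The field generated over `K` by the square roots of the numbers `num (D i)`. -/
noncomputable def sqrtField (K : Type u) [Field K] {m : ℕ} (D : Fin m → Finset ℕ) :
    IntermediateField K (AlgebraicClosure K) :=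
  IntermediateField.adjoin K {x | ∃ i, x ^ 2 = (num (D i) : AlgebraicClosure K)}

/-- The symmetric difference of the sets `D j`, `j ∈ J` (addition in the Boolean ring). -/
def cmb {m : ℕ} (D : Fin m → Finset ℕ) (J : Finset (Fin m)) : Finset ℕ :=
  ofBoolRing (∑ j ∈ J, toBoolRing (D j))

/-- The numbers `num (D i)` are independent in `K` modulo squares. -/
def Indep (K : Type u) [Field K] {m : ℕ} (D : Fin m → Finset ℕ) : Prop :=
  ∀ J : Finset (Fin m), J.Nonempty → ∀ x : K, x ^ 2 ≠ (num (cmb D J) : K)

end Pool.Agent.H.MP_ac3185_nt.HT
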