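import Pool.Agent.H.MP_ac3185_nt.helper16.Cmb

/-! Half of all pairs: few squarefree numbers are squares in `K`. -/

set_option autoImplicit false

open scoped symmDiff

namespace Pool.Agent.H.MP_ac3185_nt.HT

universe u

/-- PROOF. `x ∉ ℚ` (`towerinf_not_sq` in `U/TowerInf.lean`: a squarefree number `> 1` is not a square
of a rational number), so the minimal polynomial of `x` over `ℚ` is `X ^ 2 - n`, and the trace is
`finrank ℚ(x) K * -(minpoly ℚ x).nextCoeff = 0` (`trace_eq_finrank_mul_minpoly_nextCoeff`). -/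
theorem trace_sqrt {K : Type u} [Field K] [NumberField K] {n : ℕ} (h1 : 1 < n) (h2 : Squarefree n)
    (x : K) (hx : x ^ 2 = (n : K)) : Algebra.trace ℚ K x = 0 := by
  have hirr : Irreducible (Polynomial.X ^ 2 - Polynomial.C (n : ℚ)) :=
    X_pow_sub_C_irreducible_of_prime Nat.prime_two fun b => towerinf_not_sq h1 h2 b
  have hmin : Polynomial.X ^ 2 - Polynomial.C (n : ℚ) = minpoly ℚ x := by
    refine minpoly.eq_of_irreducible_of_monic hirr ?_ (Polynomial.monic_X_pow_sub_C _ two_ne_zero)
    simp [hx]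
  rw [trace_eq_finrank_mul_minpoly_nextCoeff, ← hmin]
  have hdeg : (Polynomial.X ^ 2 - Polynomial.C (n : ℚ)).natDegree = 2 :=
    Polynomial.natDegree_X_pow_sub_C
  rw [Polynomial.nextCoeff_of_natDegree_pos (by rw [hdeg]; exact two_pos), hdeg]
  simp [Polynomial.coeff_X_pow, Polynomial.coeff_C]

/-- PROOF. Let `x S` be a square root of `num S` in `K`. For `S ≠ S'` the product `x S * x S'` is
`num (S ∩ S')` times a square root of `num (S ∆ S')` (`num_mul`), which is squarefree and `> 1`
(primes), so its trace is zero (`trace_sqrt`), and the trace of `x S * x S` is `num S * [K : ℚ] ≠ 0`.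
So the `x S` are linearly independent over `ℚ`. -/
theorem card_squares {K : Type u} [Field K] [NumberField K] (H : Finset (Finset ℕ))
    (hp : ∀ S ∈ H, ∀ q ∈ S, q.Prime) (hsq : ∀ S ∈ H, ∃ x : K, x ^ 2 = (num S : K)) :
    H.card ≤ Module.finrank ℚ K := by
  classical
  have hsf : ∀ S : Finset ℕ, (∀ q ∈ S, q.Prime) → Squarefree (num S) := by
    intro S
    induction S using Finset.induction_on with
    | empty =>
      intro _
      unfold num
      rw [Finset.prod_empty]
      exact squarefree_one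
    | insert a S ha ih =>
      intro h
      unfold num at ih ⊢
      rw [Finset.prod_insert ha, Nat.squarefree_mul]
      · exact ⟨(h a (Finset.mem_insert_self _ _)).squarefree,
          ih fun q hq => h q (Finset.mem_insert_of_mem hq)⟩
      · refine Nat.Coprime.prod_right fun q hq => ?_
        refine (Nat.coprime_primes (h a (Finset.mem_insert_self _ _))
          (h q (Finset.mem_insert_of_mem hq))).2 fun e => ha (e ▸ hq)
  have hpos : ∀ S : Finset ℕ, (∀ q ∈ S, q.Prime) → 0 < num S := fun S h =>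
    Finset.prod_pos fun q hq => (h q hq).pos
  have hgt : ∀ S : Finset ℕ, (∀ q ∈ S, q.Prime) → S.Nonempty → 1 < num S := by
    intro S h hS
    obtain ⟨q, hq⟩ := hS
    have h1 : q ∣ num S := Finset.dvd_prod_of_mem _ hq
    exact lt_of_lt_of_le (h q hq).one_lt (Nat.le_of_dvd (hpos S h) h1)
  choose! x hx using hsq
  have hli : LinearIndependent ℚ (fun S : H => x S.1) := by
    rw [Fintype.linearIndependent_iff]
    intro g hg S₀
    have h1 : Algebra.trace ℚ K ((∑ S : H, g S • x S.1) * x S₀.1) = 0 := by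
      rw [hg, zero_mul, map_zero]
    rw [Finset.sum_mul, map_sum] at h1
    have h2 : ∀ S : H, S ≠ S₀ → Algebra.trace ℚ K (g S • x S.1 * x S₀.1) = 0 := by
      intro S hS
      have hne : S.1 ≠ S₀.1 := fun e => hS (Subtype.ext e)
      have hpS := hp S.1 S.2
      have hpS0 := hp S₀.1 S₀.2
      have hpd : ∀ q ∈ S.1 ∆ S₀.1, q.Prime := by
        intro q hq
        rcases Finset.mem_symmDiff.1 hq with h | h
        · exact hpS q h.1
        · exact hpS0 q h.1
      have hc : (num (S.1 ∩ S₀.1) : K) ≠ 0 := by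
        have := hpos (S.1 ∩ S₀.1) fun q hq => hpS q (Finset.mem_of_mem_inter_left hq)
        exact_mod_cast this.ne'
      have hnon : (S.1 ∆ S₀.1).Nonempty := by
        rw [Finset.nonempty_iff_ne_empty]
        intro e
        exact hne (symmDiff_eq_bot.1 e)
      have hy : (x S.1 * x S₀.1 / (num (S.1 ∩ S₀.1) : K)) ^ 2 = (num (S.1 ∆ S₀.1) : K) := by
        rw [div_pow, mul_pow, hx _ S.2, hx _ S₀.2, div_eq_iff (pow_ne_zero 2 hc)]
        exact_mod_cast num_mul S.1 S₀.1
      have h3 := trace_sqrt (hgt _ hpd hnon) (hsf _ hpd) _ hy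
      have h4 : g S • x S.1 * x S₀.1 = (g S * (num (S.1 ∩ S₀.1) : ℚ)) •
          (x S.1 * x S₀.1 / (num (S.1 ∩ S₀.1) : K)) := by
        rw [Algebra.smul_def, Algebra.smul_def, map_mul, map_natCast]
        field_simp
      rw [h4, map_smul, h3, smul_zero]
    rw [Finset.sum_eq_single S₀ (fun S _ hS => h2 S hS)
      (fun h => absurd (Finset.mem_univ _) h)] at h1
    have h5 : g S₀ • x S₀.1 * x S₀.1 = algebraMap ℚ K (g S₀ * (num S₀.1 : ℚ)) := by
      rw [Algebra.smul_def, mul_assoc, ← sq, hx _ S₀.2, map_mul, map_natCast]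
    rw [h5, Algebra.trace_algebraMap, nsmul_eq_mul] at h1
    have h6 : (num S₀.1 : ℚ) ≠ 0 := by
      exact_mod_cast (hpos _ (hp S₀.1 S₀.2)).ne'
    have h7 : (Module.finrank ℚ K : ℚ) ≠ 0 := by
      exact_mod_cast (Module.finrank_pos (R := ℚ) (M := K)).ne'
    rcases mul_eq_zero.1 h1 with h | h
    · exact absurd h h7
    · rcases mul_eq_zero.1 h with h | h
      · exact h
      · exact absurd h h6
  have h8 := hli.fintype_card_le_finrank
  rwa [Fintype.card_coe] at h8

end Pool.Agent.H.MP_ac3185_nt.HT
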