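import Pool.Agent.H.MP_ac3185_nt.helper16.DegA

/-! Half of all pairs: few tuples are dependent. -/

set_option autoImplicit false

open scoped symmDiff

namespace Pool.Agent.H.MP_ac3185_nt.HT

universe u

open Finset

/-- PROOF. Let `i ∈ J`. The map `D ↦ (cmb D J, D restricted to the complement of i)` is injective
(`D i = cmb D J ∆ cmb D (J \ {i})`, `cmb_symmDiff`, and `cmb D (J \ {i})` depends on the restriction
only), and its image lies in `X` times the functions from `{j // j ≠ i}` to `H`. -/
theorem card_fibre (H X : Finset (Finset ℕ)) (m : ℕ) (J : Finset (Fin m)) (hJ : J.Nonempty) :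
    ((Fintype.piFinset (fun _ : Fin m => H)).filter (fun D => cmb D J ∈ X)).card ≤
      X.card * H.card ^ (m - 1) := by
  classical
  obtain ⟨i, hi⟩ := hJ
  have hcard : (X ×ˢ Fintype.piFinset (fun _ : {j : Fin m // j ≠ i} => H)).card =
      X.card * H.card ^ (m - 1) := by
    rw [card_product, Fintype.card_piFinset, prod_const, card_univ, Fintype.card_subtype_compl,
      Fintype.card_fin, Fintype.card_unique]
  rw [← hcard]
  refine card_le_card_of_injOn (fun D => (cmb D J, fun j : {j : Fin m // j ≠ i} => D j)) ?_ ?_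
  · intro D hD
    rw [mem_coe, mem_filter, Fintype.mem_piFinset] at hD
    rw [mem_coe, mem_product, Fintype.mem_piFinset]
    exact ⟨hD.2, fun j => hD.1 j⟩
  · intro D _ D' _ h
    rw [Prod.mk.injEq] at h
    obtain ⟨h1, h2⟩ := h
    have h3 : ∀ j, j ≠ i → D j = D' j := fun j hj => congrFun h2 ⟨j, hj⟩
    have h4 : cmb D (J.erase i) = cmb D' (J.erase i) := by
      unfold cmb
      congr 1
      exact sum_congr rfl fun j hj => by rw [h3 j (ne_of_mem_erase hj)]
    rw [← insert_erase hi, cmb_insert D i _ (notMem_erase i J), cmb_insert D' i _ (notMem_erase i J),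
      h4, symmDiff_left_inj] at h1
    funext j
    by_cases hj : j = i
    · rw [hj]
      exact h1
    · exact h3 j hj

open Classical in
/-- PROOF. A dependent tuple has a nonempty `J` with `cmb D J ∈ X`, where `X` is the set of the
elements of `H` whose `num` is a square in `K`; `card_squares`, `card_fibre`, and there are at most
`2 ^ m` sets `J` (`card_biUnion_le`). -/
theorem card_dependent {K : Type u} [Field K] [NumberField K] (H : Finset (Finset ℕ))
    (hp : ∀ S ∈ H, ∀ q ∈ S, q.Prime) (h0 : ∅ ∈ H) (hH : ∀ E ∈ H, ∀ E' ∈ H, E ∆ E' ∈ H) (m : ℕ) :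
    ((Fintype.piFinset (fun _ : Fin m => H)).filter (fun D => ¬ Indep K D)).card ≤
      2 ^ m * (Module.finrank ℚ K * H.card ^ (m - 1)) := by
  obtain ⟨X, hX⟩ : ∃ X : Finset (Finset ℕ),
      X = H.filter fun S => ∃ x : K, x ^ 2 = (num S : K) := ⟨_, rfl⟩
  have hXc : X.card ≤ Module.finrank ℚ K := by
    refine card_squares X (fun S hS => hp S ?_) fun S hS => ?_
    · rw [hX] at hS
      exact (mem_filter.1 hS).1
    · rw [hX] at hS
      exact (mem_filter.1 hS).2
  have hsub : (Fintype.piFinset (fun _ : Fin m => H)).filter (fun D => ¬ Indep K D) ⊆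
      ((univ : Finset (Finset (Fin m))).filter (fun J => J.Nonempty)).biUnion fun J =>
        (Fintype.piFinset (fun _ : Fin m => H)).filter (fun D => cmb D J ∈ X) := by
    intro D hD
    rw [mem_filter] at hD
    obtain ⟨hD1, hD2⟩ := hD
    unfold Indep at hD2
    push Not at hD2
    obtain ⟨J, hJ, x, hx⟩ := hD2
    refine mem_biUnion.2 ⟨J, mem_filter.2 ⟨mem_univ J, hJ⟩, mem_filter.2 ⟨hD1, ?_⟩⟩
    rw [hX, mem_filter]
    exact ⟨cmb_induction D (fun S => S ∈ H) h0 (fun S S' h h' => hH S h S' h')
      (fun i => Fintype.mem_piFinset.1 hD1 i) J, x, hx⟩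
  refine (card_le_card hsub).trans (card_biUnion_le.trans ?_)
  have hle : ∀ J ∈ (univ : Finset (Finset (Fin m))).filter (fun J => J.Nonempty),
      ((Fintype.piFinset (fun _ : Fin m => H)).filter (fun D => cmb D J ∈ X)).card ≤
        Module.finrank ℚ K * H.card ^ (m - 1) := by
    intro J hJ
    exact (card_fibre H X m J (mem_filter.1 hJ).2).trans (Nat.mul_le_mul_right _ hXc)
  refine (sum_le_card_nsmul _ _ _ hle).trans ?_
  rw [smul_eq_mul]
  refine Nat.mul_le_mul_right _ ?_
  refine (card_filter_le _ _).trans ?_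
  rw [card_univ, Fintype.card_finset, Fintype.card_fin]

end Pool.Agent.H.MP_ac3185_nt.HT
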