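import Pool.Agent.H.MP_ac3185_nt.helper16.DegreeA

/-! Half of all pairs: the characters of the group of `F = sqrtField K D`. -/

set_option autoImplicit false

open CategoryTheory AlgebraicGeometry NumberField IsDedekindDomain
open scoped MonObj symmDiff

namespace Pool.Agent.H.MP_ac3185_nt.HT

universe u

variable {K : Type u} [Field K] [CharZero K] {m : ℕ} (D : Fin m → Finset ℕ)

/-- An automorphism on which the characters of the numbers `num (D i)` are trivial is trivial on
`sqrtField K D`. -/
private theorem Degree_fix [Normal K (sqrtField K D)]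
    (σ : AlgebraicClosure K ≃ₐ[K] AlgebraicClosure K) (h : ∀ i, chi (num (D i)) σ = 1) :
    AlgEquiv.restrictNormalHom (sqrtField K D) σ = 1 := by
  have hall : ∀ y ∈ sqrtField K D, σ y = y := by
    intro y hy
    unfold sqrtField at hy
    induction hy using IntermediateField.adjoin_induction with
    | mem x hx =>
      obtain ⟨i, hi⟩ := hx
      exact (chi_eq_one_iff (num (D i)) σ x hi).1 (h i)
    | algebraMap x => exact σ.commutes x
    | add x y _ _ h1 h2 => rw [map_add, h1, h2]
    | inv x _ h1 => rw [map_inv₀, h1]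
    | mul x y _ _ h1 h2 => rw [map_mul, h1, h2]
  apply AlgEquiv.ext
  intro x
  apply Subtype.ext
  have hcomm : ((AlgEquiv.restrictNormalHom (sqrtField K D) σ x : sqrtField K D) :
      AlgebraicClosure K) = σ (x : AlgebraicClosure K) :=
    AlgEquiv.restrictNormal_commutes σ (sqrtField K D) x
  rw [hcomm, hall x x.2]
  rfl

omit [CharZero K] in
private theorem Degree_zero (h0 : ∀ i, 0 ∉ D i) (J : Finset (Fin m)) : 0 ∉ cmb D J := by
  refine cmb_induction D (fun S => 0 ∉ S) (Finset.notMem_empty 0) ?_ h0 J
  intro S S' h h' h2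
  rcases Finset.mem_symmDiff.1 h2 with h3 | h3
  · exact h h3.1
  · exact h' h3.1

private theorem Degree_prod (h0 : ∀ i, 0 ∉ D i) (t : Finset (Fin m)) :
    ∏ i ∈ t, chi (K := K) (num (D i)) = chi (num (cmb D t)) := by
  classical
  induction t using Finset.induction_on with
  | empty =>
    rw [Finset.prod_empty, cmb_empty]
    have : num ∅ = 1 := by
      unfold num
      exact Finset.prod_empty
    rw [this, chi_one]
  | insert a t ha ih =>
    rw [Finset.prod_insert ha, ih, cmb_insert D a t ha, chi_num_symmDiff (h0 a) (Degree_zero D h0 t)]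

/-- All characters come from subsets (by `char_prod_of_ker`). -/
theorem exists_subset [Normal K (sqrtField K D)] (h0 : ∀ i, 0 ∉ D i)
    (ε : (sqrtField K D ≃ₐ[K] sqrtField K D) →* ℤˣ) :
    ∃ J : Finset (Fin m), ∀ σ : AlgebraicClosure K ≃ₐ[K] AlgebraicClosure K,
        ε (AlgEquiv.restrictNormalHom (sqrtField K D) σ) = chi (num (cmb D J)) σ := by
  classical
  obtain ⟨t, -, ht⟩ := char_prod_of_ker (Finset.univ : Finset (Fin m))
    (fun i => (chi (num (D i)) : (AlgebraicClosure K ≃ₐ[K] AlgebraicClosure K) →* ℤˣ))
    (ε.comp (AlgEquiv.restrictNormalHom (sqrtField K D))) (by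
      intro σ hσ
      rw [MonoidHom.comp_apply, Degree_fix D σ fun i => hσ i (Finset.mem_univ i), map_one])
  refine ⟨t, fun σ => ?_⟩
  rw [← Degree_prod D h0 t, ← ht]
  rfl

omit [CharZero K] in
private theorem Degree_surj [Normal K (sqrtField K D)] :
    Function.Surjective (AlgEquiv.restrictNormalHom (F := K) (K₁ := AlgebraicClosure K)
      (sqrtField K D)) :=
  AlgEquiv.restrictNormalHom_surjective (AlgebraicClosure K)

/-- The characters of `Gal(F/K)` correspond to the subsets if the numbers are independent. -/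
theorem exists_equiv [Normal K (sqrtField K D)] (h0 : ∀ i, 0 ∉ D i) (hind : Indep K D) :
    ∃ E : Finset (Fin m) ≃ ((sqrtField K D ≃ₐ[K] sqrtField K D) →* ℤˣ),
      ∀ (J : Finset (Fin m)) (σ : AlgebraicClosure K ≃ₐ[K] AlgebraicClosure K),
        E J (AlgEquiv.restrictNormalHom (sqrtField K D) σ) = chi (num (cmb D J)) σ := by
  classical
  choose e he using fun J => exists_eps (K := K) D h0 J
  have hinj : Function.Injective e := by
    intro J J' h
    by_contra hne
    have h1 : chi (K := K) (num (cmb D J)) = chi (num (cmb D J')) := by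
      apply MonoidHom.ext
      intro σ
      rw [← he J σ, ← he J' σ, h]
    have h2 : chi (K := K) (num (cmb D (J ∆ J'))) = 1 := by
      rw [cmb_symmDiff, chi_num_symmDiff (Degree_zero D h0 J) (Degree_zero D h0 J'), h1,
        Chi_self_mul]
    obtain ⟨x, hx⟩ := (chi_num_eq_one _).1 h2
    refine hind (J ∆ J') ?_ x hx
    rw [Finset.nonempty_iff_ne_empty]
    intro h3
    apply hne
    exact symmDiff_eq_bot.1 h3
  have hsurj : Function.Surjective e := by
    intro ε
    obtain ⟨J, hJ⟩ := exists_subset D h0 ε
    refine ⟨J, ?_⟩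
    apply MonoidHom.ext
    intro g
    obtain ⟨σ, rfl⟩ := Degree_surj D g
    rw [he, hJ]
  exact ⟨Equiv.ofBijective e ⟨hinj, hsurj⟩, fun J σ => he J σ⟩

theorem finrank_sqrtField (h0 : ∀ i, 0 ∉ D i) (hind : Indep K D) :
    Module.finrank K (sqrtField K D) = 2 ^ m := by
  classical
  have hfd : FiniteDimensional K (sqrtField K D) := sqrtField_finite D
  have hgal : IsGalois K (sqrtField K D) := sqrtField_isGalois D
  have hnor : Normal K (sqrtField K D) := IsGalois.to_normal
  obtain ⟨E, hE⟩ := exists_equiv D h0 hind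
  have hft : Fintype (sqrtField K D ≃ₐ[K] sqrtField K D) := Fintype.ofFinite _
  rw [← IsGalois.card_aut_eq_finrank, Nat.card_eq_fintype_card]
  apply le_antisymm
  · have h1 : ∀ i, cmb D {i} = D i := by
      intro i
      have h2 := cmb_insert D i ∅ (Finset.notMem_empty i)
      rw [cmb_empty] at h2
      rw [← Finset.insert_empty, h2]
      exact symmDiff_bot _
    have h2 : Function.Injective (fun (g : sqrtField K D ≃ₐ[K] sqrtField K D) (i : Fin m) =>
        E {i} g) := by
      intro g g' h
      obtain ⟨σ, rfl⟩ := Degree_surj D g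
      obtain ⟨σ', rfl⟩ := Degree_surj D g'
      have h3 : ∀ i, chi (num (D i)) (σ⁻¹ * σ') = 1 := by
        intro i
        have h4 := congrFun h i
        simp only at h4
        rw [hE, hE, h1] at h4
        rw [map_mul, map_inv, h4, inv_mul_cancel]
      have h5 := Degree_fix D _ h3
      rw [map_mul, map_inv, inv_mul_eq_one] at h5
      exact h5
    have h3 := Fintype.card_le_of_injective _ h2
    rw [Fintype.card_fun, Fintype.card_fin] at h3
    have h4 : Fintype.card ℤˣ = 2 := by decide
    rwa [h4] at h3
  · obtain ⟨c, hc⟩ : ∃ c : ℤˣ →* ℚ, c = ((Int.castRingHom ℚ) : ℤ →* ℚ).comp (Units.coeHom ℤ) :=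
      ⟨_, rfl⟩
    have hci : Function.Injective c := by
      intro x y hxy
      rw [hc] at hxy
      apply Units.ext
      have h5 : (((x : ℤ)) : ℚ) = ((y : ℤ) : ℚ) := hxy
      exact_mod_cast h5
    have h1 := linearIndependent_monoidHom (sqrtField K D ≃ₐ[K] sqrtField K D) ℚ
    have h2 : Function.Injective (fun J : Finset (Fin m) => c.comp (E J)) := by
      intro J J' h
      apply E.injective
      apply MonoidHom.ext
      intro g
      exact hci (DFunLike.congr_fun h g)
    have h3 := (h1.comp _ h2).fintype_card_le_finrank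
    rw [Module.finrank_fintype_fun_eq_card, Fintype.card_finset, Fintype.card_fin] at h3
    exact h3

end Pool.Agent.H.MP_ac3185_nt.HT
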