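import Pool.Agent.H.MP_ac3185_nt.helper16.Cmb

/-! Half of all pairs: the characters of the group of `F = sqrtField K D`. -/

set_option autoImplicit false

open CategoryTheory AlgebraicGeometry NumberField IsDedekindDomain
open scoped MonObj symmDiff

namespace Pool.Agent.H.MP_ac3185_nt.HT

universe u

variable {K : Type u} [Field K] [CharZero K] {m : ℕ} (D : Fin m → Finset ℕ)

/-- PROOF. The generating set is finite (two square roots of every number) and algebraic. -/
theorem sqrtField_finite : FiniteDimensional K (sqrtField K D) := by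
  unfold sqrtField
  have hfin : {x : AlgebraicClosure K | ∃ i, x ^ 2 = (num (D i) : AlgebraicClosure K)}.Finite := by
    have h1 : {x : AlgebraicClosure K | ∃ i, x ^ 2 = (num (D i) : AlgebraicClosure K)} ⊆
        ⋃ i, ({rt K (num (D i)), -rt K (num (D i))} : Set (AlgebraicClosure K)) := by
      rintro x ⟨i, hx⟩
      rw [Set.mem_iUnion]
      refine ⟨i, ?_⟩
      rw [← rt_sq K (num (D i))] at hx
      rcases sq_eq_sq_iff_eq_or_eq_neg.1 hx with h | h
      · exact Or.inl h
      · exact Or.inr h
    exact (Set.finite_iUnion fun i => Set.toFinite _).subset h1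
  have : Finite {x : AlgebraicClosure K | ∃ i, x ^ 2 = (num (D i) : AlgebraicClosure K)} :=
    hfin.to_subtype
  exact IntermediateField.finiteDimensional_adjoin fun x _ =>
    (AlgebraicClosure.isAlgebraic K).isAlgebraic x |>.isIntegral

/-- The field lies in a tower. -/
private theorem DegreeA_le : sqrtField K D ≤ primeTower K {n | ∃ i, n = num (D i)} := by
  unfold sqrtField primeTower
  apply IntermediateField.adjoin.mono
  rintro x ⟨i, hx⟩
  exact ⟨num (D i), ⟨i, rfl⟩, hx⟩

/-- PROOF. `tower_isGalois` (`U/Tower.lean`) for the set of the numbers `num (D i)`: `sqrtField K D`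
is `primeTower K {n | ∃ i, n = num (D i)}`. -/
theorem sqrtField_isGalois : IsGalois K (sqrtField K D) := by
  have := sqrtField_finite (K := K) D
  exact (tower_isGalois _ _ (DegreeA_le D)).1

/-- PROOF. `tower_twoNilpotent` (`U/Tower.lean`). -/
theorem sqrtField_two : TwoNilpotent (sqrtField K D) := by
  have := sqrtField_finite (K := K) D
  exact tower_twoNilpotent _ _ (DegreeA_le D)

/-- A square root in the field. -/
private theorem DegreeA_rt (n : ℕ) (y : AlgebraicClosure K) (hy : y ∈ sqrtField K D)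
    (hn : y ^ 2 = (n : AlgebraicClosure K)) : rt K n ∈ sqrtField K D := by
  rw [← rt_sq K n] at hn
  rcases sq_eq_sq_iff_eq_or_eq_neg.1 hn with h | h
  · rwa [← h]
  · have h2 : rt K n = -y := by rw [h, neg_neg]
    rw [h2]
    exact neg_mem hy

/-- The square roots of `num (cmb D J)` lie in `F`. PROOF. Induction on `J`: `cmb_insert`, `num_mul`
(`rt (num (D j)) * rt (num (cmb D J)) / num (intersection)` is a square root; the numbers are not zero). -/
theorem rt_mem (h0 : ∀ i, 0 ∉ D i) (J : Finset (Fin m)) :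
    rt K (num (cmb D J)) ∈ sqrtField K D := by
  refine (cmb_induction D (fun S => 0 ∉ S ∧ rt K (num S) ∈ sqrtField K D) ?_ ?_ ?_ J).2
  · refine ⟨Finset.notMem_empty 0, DegreeA_rt D _ 1 (one_mem _) ?_⟩
    simp [num]
  · rintro S S' ⟨h1, h2⟩ ⟨h3, h4⟩
    refine ⟨fun h5 => ?_, ?_⟩
    · rcases Finset.mem_symmDiff.1 h5 with ⟨h6, -⟩ | ⟨h6, -⟩
      · exact h1 h6
      · exact h3 h6
    · have hc : num (S ∩ S') ≠ 0 := by
        unfold num
        rw [Finset.prod_ne_zero_iff]
        rintro q hq rfl
        exact h1 (Finset.mem_inter.1 hq).1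
      have hc' : (num (S ∩ S') : AlgebraicClosure K) ≠ 0 := Nat.cast_ne_zero.2 hc
      have hnat : (num (S ∩ S') : AlgebraicClosure K) ∈ sqrtField K D := natCast_mem _ _
      refine DegreeA_rt D _ (rt K (num S) * rt K (num S') / (num (S ∩ S') : AlgebraicClosure K))
        (div_mem (mul_mem h2 h4) hnat) ?_
      rw [div_pow, mul_pow, rt_sq, rt_sq, div_eq_iff (pow_ne_zero 2 hc')]
      exact_mod_cast num_mul S S'
  · intro i
    exact ⟨h0 i, IntermediateField.subset_adjoin K _ ⟨i, rt_sq K (num (D i))⟩⟩

/-- The character of `Gal(F/K)` which belongs to a subset `J`.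
PROOF. `MonoidHom.liftOfSurjective` for `AlgEquiv.restrictNormalHom F` (surjective:
`AlgEquiv.restrictNormalHom_surjective`); the kernel of the restriction fixes `rt (num (cmb D J))`
(`rt_mem`, `chi_eq_one_iff`, `rt_sq`). -/
theorem exists_eps [Normal K (sqrtField K D)] (h0 : ∀ i, 0 ∉ D i) (J : Finset (Fin m)) :
    ∃ ε : (sqrtField K D ≃ₐ[K] sqrtField K D) →* ℤˣ,
      ∀ σ : AlgebraicClosure K ≃ₐ[K] AlgebraicClosure K,
        ε (AlgEquiv.restrictNormalHom (sqrtField K D) σ) = chi (num (cmb D J)) σ := by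
  have hsurj : Function.Surjective (AlgEquiv.restrictNormalHom (F := K) (K₁ := AlgebraicClosure K)
      (sqrtField K D)) := AlgEquiv.restrictNormalHom_surjective (AlgebraicClosure K)
  have hker : (AlgEquiv.restrictNormalHom (F := K) (K₁ := AlgebraicClosure K)
      (sqrtField K D)).ker ≤ (chi (K := K) (num (cmb D J))).ker := by
    intro σ hσ
    rw [MonoidHom.mem_ker] at hσ ⊢
    rw [chi_eq_one_iff _ σ _ (rt_sq K (num (cmb D J)))]
    have h1 := AlgEquiv.restrictNormal_commutes σ (sqrtField K D)
      ⟨rt K (num (cmb D J)), rt_mem D h0 J⟩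
    have h2 : σ.restrictNormal (sqrtField K D) = 1 := hσ
    rw [h2] at h1
    exact h1.symm
  refine ⟨MonoidHom.liftOfRightInverse _ _ (Function.rightInverse_surjInv hsurj)
    ⟨chi (K := K) (num (cmb D J)), hker⟩, fun σ => ?_⟩
  exact MonoidHom.liftOfRightInverse_comp_apply _ _ _ _ _

/-- PROOF. Otherwise all square roots lie in `K`, so `F = ⊥` and the degree is `1`. -/
theorem exists_not_square (hm : 1 ≤ m) (h : Module.finrank K (sqrtField K D) = 2 ^ m) :
    ∃ i, ∀ x : K, x ^ 2 ≠ (num (D i) : K) := by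
  by_contra hcon
  push Not at hcon
  have hbot : sqrtField K D = ⊥ := by
    rw [eq_bot_iff]
    unfold sqrtField
    rw [IntermediateField.adjoin_le_iff]
    rintro y ⟨i, hy⟩
    obtain ⟨x, hx⟩ := hcon i
    have h1 : (algebraMap K (AlgebraicClosure K) x) ^ 2 = (num (D i) : AlgebraicClosure K) := by
      rw [← map_pow, hx, map_natCast]
    rw [← h1] at hy
    have h2 : algebraMap K (AlgebraicClosure K) x ∈ (⊥ : IntermediateField K (AlgebraicClosure K)) :=
      IntermediateField.algebraMap_mem _ _
    rcases sq_eq_sq_iff_eq_or_eq_neg.1 hy with h | h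
    · rw [h]
      exact h2
    · rw [h]
      exact neg_mem h2
  rw [hbot, IntermediateField.finrank_bot] at h
  have h3 : 1 < 2 ^ m := Nat.one_lt_two_pow (by omega)
  omega

end Pool.Agent.H.MP_ac3185_nt.HT
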