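import Pool.Agent.H.MP_ac3185_nt.helper16.Root
import Pool.Agent.H.MP_ac3185_nt.helper16.AboveM
import Pool.Agent.H.MP_ac3185_nt.helper16.CombP
import Pool.Agent.H.MP_ac3185_nt.helper16.CombM
import Pool.Agent.H.MP_ac3185_nt.helper16.DegB
import Pool.Agent.H.MP_ac3185_nt.helper16.Index

/-! Half of all pairs: the theorem. -/

set_option autoImplicit false

open CategoryTheory AlgebraicGeometry NumberField IsDedekindDomain
open scoped MonObj symmDiff

namespace Pool.Agent.H.MP_ac3185_nt.HT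

universe u

/-- The rank over `F` of the quadratic twist of `A` by `num S` is even. (The rank is the cardinal number
`Module.rank`, and a cardinal `c` is even if `c = b + b` for some `b`; infinite cardinals, which do not
occur by the theorem of Mordell and Weil, are even.) -/
def EvenRank {K : Type u} [Field K] [NumberField K] (A : Over (Spec (.of K))) [GrpObj A]
    [IsAbVar A] (S : Finset ℕ) (F : IntermediateField K (AlgebraicClosure K)) : Prop :=
  ∀ (B : Over (Spec (.of K))) [GrpObj B] [IsAbVar B], IsQuadTwist A B (num S) →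
    Even (Module.rank ℤ (Pts B F))

/-- The global root number over `F` of the quadratic twist of `A` by `num S` is `1`. -/
def SignOne {K : Type u} [Field K] [NumberField K] (A : Over (Spec (.of K))) [GrpObj A]
    [IsAbVar A] (S : Finset ℕ) (F : IntermediateField K (AlgebraicClosure K)) : Prop :=
  ∀ (B : Over (Spec (.of K))) [GrpObj B] [IsAbVar B], IsQuadTwist A B (num S) →
    ∀ W : LocalSigns K, IsRootNumberFamily B W → ∀ g : ℕ, signOver W g F = 1

/-- PROOF. There is a non-trivial character of `Gal(F/K)` (`exists_char_of_quadratic`), by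
`above_subset` it is the character of `num (cmb D J)` for some `J`; the square roots of this number are
in `F` (`rank_mem_of_fixed`) and not in `K`. `root_half`. -/
theorem above_sign {K : Type u} [Field K] [NumberField K] (A : Over (Spec (.of K))) [GrpObj A]
    [IsAbVar A] {N : ℕ} (hN : N ≠ 0) (hA : GoodOutside A N) (S : Finset ℕ)
    (hS : ∀ q ∈ S, q.Prime) {m : ℕ} (D : Fin m → Finset ℕ)
    (hp : ∀ i, ∀ q ∈ D i, q.Prime) (hD : ∀ i, Nice N (D i))
    (F : IntermediateField K (AlgebraicClosure K)) (hF : AboveTower (sqrtField K D) F) :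
    SignOne A S F := by
  intro B _ _ hAB W hW g
  obtain ⟨hfin, hgal, -, hQ, hq⟩ := hF
  have h0 : ∀ i, 0 ∉ D i := fun i h => Nat.not_prime_zero (hp i 0 h)
  obtain ⟨ε, hε⟩ := exists_char_of_quadratic F hQ
  obtain ⟨J, hJ⟩ := above_subset D F hq h0 ε
  have hne : chi (K := K) (num (cmb D J)) ≠ 1 := by
    intro h
    apply hε
    apply MonoidHom.ext
    intro t
    obtain ⟨σ, rfl⟩ := AlgEquiv.restrictNormalHom_surjective (F := K) (K₁ := F)
      (AlgebraicClosure K) t
    rw [hJ, h]
    rfl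
  have hK : ∀ y : K, y ^ 2 ≠ (num (cmb D J) : K) := fun y hy =>
    hne ((chi_num_eq_one (K := K) _).2 ⟨y, hy⟩)
  have hxF : rt K (num (cmb D J)) ∈ F := by
    refine rank_mem_of_fixed F _ fun σ hσ => ?_
    rw [← chi_eq_one_iff _ σ _ (rt_sq K (num (cmb D J))), ← hJ, rank_restrict_one F σ hσ, map_one]
  have hpr : ∀ q ∈ cmb D J, q.Prime := by
    refine cmb_induction D (fun S => ∀ q ∈ S, q.Prime) (by simp) (fun S S' h h' q hq => ?_) hp J
    rcases Finset.mem_symmDiff.1 hq with h2 | h2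
    · exact h q h2.1
    · exact h' q h2.1
  have hnice : Nice N (cmb D J) :=
    cmb_induction D (Nice N) (nice_empty N) (fun _ _ h h' => nice_symmDiff h h') hD J
  exact root_half A B hN hA S (cmb D J) hS hpr hnice hAB W hW g F _ hxF (rt_sq K _) hK

/-- `F₀ = K(√(D 0), ..., √(D (m-1)))` has degree `2 ^ m`, and the rank over `F` of the quadratic twist
of `A` by `num S` is even for all extensions `F` of `K` with `Over2 F₀ F`. -/
def GoodPair {K : Type u} [Field K] [NumberField K] (A : Over (Spec (.of K))) [GrpObj A]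
    [IsAbVar A] {m : ℕ} (S : Finset ℕ) (D : Fin m → Finset ℕ) : Prop :=
  Module.finrank K (sqrtField K D) = 2 ^ m ∧
    ∀ F, Over2 (sqrtField K D) F → EvenRank A S F

/-- `F₀ = K(√(D 0), ..., √(D (m-1)))` has degree `2 ^ m` and the ranks over `F` of the quadratic twists
of `A` by `num S` times a product of numbers `num (D j)` (modulo squares) are even for all Galois
extensions `F` of `K` whose group has a normal `2`-complement and whose quadratic subextensions lie
in `F₀`, if there are any. -/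
def AllGood {K : Type u} [Field K] [NumberField K] (A : Over (Spec (.of K))) [GrpObj A]
    [IsAbVar A] {m : ℕ} (S : Finset ℕ) (D : Fin m → Finset ℕ) : Prop :=
  Module.finrank K (sqrtField K D) = 2 ^ m ∧
    ∀ J F, AboveTower (sqrtField K D) F → EvenRank A (S ∆ cmb D J) F

/-- The field `F₀` itself is one of the extensions `F` in the definitions of `GoodPair`, `AllGood`. -/
theorem above_self {K : Type u} [Field K] [NumberField K] {m : ℕ} (hm : 1 ≤ m)
    (D : Fin m → Finset ℕ) (h : Module.finrank K (sqrtField K D) = 2 ^ m) :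
    AboveTower (sqrtField K D) (sqrtField K D) := by
  have hfd : FiniteDimensional K (sqrtField K D) := sqrtField_finite D
  have hle : sqrtField K D ≤ primeTower K {n | ∃ i, n = num (D i)} := by
    unfold sqrtField primeTower
    apply IntermediateField.adjoin.mono
    rintro x ⟨i, hx⟩
    exact ⟨num (D i), ⟨i, rfl⟩, hx⟩
  refine aboveTower_of_le _ _ hle _ le_rfl fun hb => ?_
  rw [hb, IntermediateField.finrank_bot] at h
  have h3 : 1 < 2 ^ m := Nat.one_lt_two_pow (by omega)
  omega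

/-- The global root number over all these extensions. -/
theorem half_sign {K : Type u} [Field K] [NumberField K] (A : Over (Spec (.of K))) [GrpObj A]
    [IsAbVar A] {N : ℕ} (hN : N ≠ 0) (hA : GoodOutside A N) (S : Finset ℕ)
    (hS : ∀ q ∈ S, q.Prime) {m : ℕ} (hm : 1 ≤ m) (D : Fin m → Finset ℕ)
    (hp : ∀ i, ∀ q ∈ D i, q.Prime) (hD : ∀ i, Nice N (D i))
    (hdeg : Module.finrank K (sqrtField K D) = 2 ^ m)
    (F : IntermediateField K (AlgebraicClosure K)) (hF : Over2 (sqrtField K D) F) :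
    SignOne A S F := by
  obtain ⟨-, -, -, ⟨Q, hQ, hQ2⟩, -⟩ := above_self hm D hdeg
  exact above_sign A hN hA S hS D hp hD F
    ⟨hF.2.1, hF.2.2.1, hF.2.2.2.1, ⟨Q, hQ.trans hF.1, hQ2⟩, hF.2.2.2.2⟩

open Classical in
/-- PROOF. `X` is contained in the set of the good pairs and of the pairs with a dependent `D`; the
number of the latter is at most `card C * (2 ^ m * (finrank * card H ^ (m - 1)))`
(`card_dependent`). -/
theorem count_aux {K : Type u} [Field K] [NumberField K] (C H : Finset (Finset ℕ))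
    (hHp : ∀ E ∈ H, ∀ q ∈ E, q.Prime) (h0 : ∅ ∈ H) (hH : ∀ E ∈ H, ∀ E' ∈ H, E ∆ E' ∈ H) (m k : ℕ)
    (X : Finset (Finset ℕ × (Fin m → Finset ℕ))) (Q : Finset ℕ × (Fin m → Finset ℕ) → Prop)
    (hX : X ⊆ C ×ˢ Fintype.piFinset (fun _ : Fin m => H)) (hk : C.card * H.card ^ m ≤ k * X.card)
    (hPQ : ∀ p ∈ X, p.1 ∈ C → (∀ i, p.2 i ∈ H) → Indep K p.2 → Q p) :
    C.card * H.card ^ m ≤
      k * ((C ×ˢ Fintype.piFinset (fun _ : Fin m => H)).filter Q).card +
      k * 2 ^ m * Module.finrank ℚ K * C.card * H.card ^ (m - 1) := by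
  have hdep := card_dependent (K := K) H hHp h0 hH m
  set G := (C ×ˢ Fintype.piFinset (fun _ : Fin m => H)).filter Q with hG
  have hsub : X ⊆
      G ∪ C ×ˢ (Fintype.piFinset (fun _ : Fin m => H)).filter (fun D => ¬ Indep K D) := by
    intro p hp
    have hp1 := hX hp
    obtain ⟨hp3, hp4⟩ := Finset.mem_product.1 hp1
    rw [Finset.mem_union]
    by_cases hind : Indep K p.2
    · left
      rw [hG, Finset.mem_filter]
      exact ⟨hp1, hPQ p hp hp3 (Fintype.mem_piFinset.1 hp4) hind⟩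
    · right
      rw [Finset.mem_product, Finset.mem_filter]
      exact ⟨hp3, hp4, hind⟩
  have h1 := (Finset.card_le_card hsub).trans (Finset.card_union_le _ _)
  rw [Finset.card_product] at h1
  have h2 : C.card * ((Fintype.piFinset (fun _ : Fin m => H)).filter
      (fun D => ¬ Indep K D)).card ≤
      C.card * (2 ^ m * (Module.finrank ℚ K * H.card ^ (m - 1))) :=
    Nat.mul_le_mul_left _ hdep
  calc C.card * H.card ^ m ≤ k * _ := hk
    _ ≤ k * (G.card + C.card * (2 ^ m * (Module.finrank ℚ K * H.card ^ (m - 1)))) :=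
        Nat.mul_le_mul_left k (h1.trans (Nat.add_le_add_left h2 _))
    _ = _ := by ring

open Classical in
/-- Half of all pairs. -/
theorem half_count {K : Type u} [Field K] [NumberField K] (A : Over (Spec (.of K))) [GrpObj A]
    [IsAbVar A] (C H : Finset (Finset ℕ)) (hCp : ∀ S ∈ C, ∀ q ∈ S, q.Prime)
    (hHp : ∀ E ∈ H, ∀ q ∈ E, q.Prime) (h0 : ∅ ∈ H) (hH : ∀ E ∈ H, ∀ E' ∈ H, E ∆ E' ∈ H)
    (hC : ∀ S ∈ C, ∀ E ∈ H, S ∆ E ∈ C) (m : ℕ) (hm : 1 ≤ m) :
    C.card * H.card ^ m ≤
      2 * ((C ×ˢ Fintype.piFinset (fun _ : Fin m => H)).filter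
        (fun p => GoodPair A p.1 p.2)).card +
      2 * 2 ^ m * Module.finrank ℚ K * C.card * H.card ^ (m - 1) := by
  have hC0 : ∀ S ∈ C, 0 ∉ S := fun S hS h => Nat.not_prime_zero (hCp S hS 0 h)
  have hH0 : ∀ S ∈ H, 0 ∉ S := fun S hS h => Nat.not_prime_zero (hHp S hS 0 h)
  refine count_aux C H hHp h0 hH m 2 _ (fun p => GoodPair A p.1 p.2)
    (Finset.filter_subset _ _) (cube_half C H hC h0 hH (fun S => chiRank A (num S)) m hm) ?_
  intro p hp hp1 hp2 hind
  have he := (Finset.mem_filter.1 hp).2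
  refine ⟨finrank_sqrtField p.2 (fun i => hH0 _ (hp2 i)) hind, fun F hF B _ _ hAB => ?_⟩
  exact above_rank p.2 (fun i => hH0 _ (hp2 i)) hind p.1 (hC0 _ hp1) A B hAB he F hF

open Classical in
/-- Many families in which everything is right. -/
theorem mono_count {K : Type u} [Field K] [NumberField K] (A : Over (Spec (.of K))) [GrpObj A]
    [IsAbVar A] (C H : Finset (Finset ℕ)) (hCp : ∀ S ∈ C, ∀ q ∈ S, q.Prime)
    (hHp : ∀ E ∈ H, ∀ q ∈ E, q.Prime) (h0 : ∅ ∈ H) (hH : ∀ E ∈ H, ∀ E' ∈ H, E ∆ E' ∈ H)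
    (hC : ∀ S ∈ C, ∀ E ∈ H, S ∆ E ∈ C) (m : ℕ) :
    C.card * H.card ^ m ≤
      2 ^ (2 ^ m - 1) * ((C ×ˢ Fintype.piFinset (fun _ : Fin m => H)).filter
        (fun p => AllGood A p.1 p.2)).card +
      2 ^ (2 ^ m - 1) * 2 ^ m * Module.finrank ℚ K * C.card * H.card ^ (m - 1) := by
  have hC0 : ∀ S ∈ C, 0 ∉ S := fun S hS h => Nat.not_prime_zero (hCp S hS 0 h)
  have hH0 : ∀ S ∈ H, 0 ∉ S := fun S hS h => Nat.not_prime_zero (hHp S hS 0 h)
  obtain ⟨P, hP⟩ : ∃ P : Finset ℕ → Prop, ∀ S, P S ↔ Even (chiRank A (num S)) :=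
    ⟨_, fun _ => Iff.rfl⟩
  have hk := mono_cubes C H hC h0 hH P m
  refine count_aux C H hHp h0 hH m _ _ (fun p => AllGood A p.1 p.2)
    (Finset.filter_subset _ _) hk ?_
  intro p hp hp1 hp2 hind
  have he := (Finset.mem_filter.1 hp).2
  simp only [hP] at he
  refine ⟨finrank_sqrtField p.2 (fun i => hH0 _ (hp2 i)) hind, fun J F hF B _ _ hAB => ?_⟩
  exact mono_rank p.2 (fun i => hH0 _ (hp2 i)) p.1 (hC0 _ hp1) A he J B hAB F hF

end Pool.Agent.H.MP_ac3185_nt.HT
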