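import Pool.Agent.H.MP_ac3185_nt.helper16.Degree

/-! Half of all pairs: the parity of the ranks. -/

set_option autoImplicit false

open CategoryTheory AlgebraicGeometry NumberField IsDedekindDomain
open scoped MonObj symmDiff

namespace Pool.Agent.H.MP_ac3185_nt.HT

universe u

/-- PROOF. As `rank_twist_mod` and `gt_all` (`U/Rank.lean`, `W/Twist.lean`): if the rank is infinite it
is even (`gt_even_infinite`). If it is `r`: `exists_twistRep` for `e = num S`,
`finrank_two_nilpotent` (`sqrtField_two`): `r ≡ ∑ᶠ ε, finrank (epsPart ρ ε)`; reindex by `exists_equiv`: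
for `ε = E J` one has `ε(σ|F) * chi (num S) σ = chi (num (S ∆ cmb D J)) σ` (`chi_num_symmDiff`), so
`finrank (epsPart ρ ε) = chiRank A (num (S ∆ cmb D J))`. `gt_even_nat`. -/
theorem rank_cube {K : Type u} [Field K] [CharZero K] {m : ℕ} (D : Fin m → Finset ℕ)
    (h0 : ∀ i, 0 ∉ D i) (hind : Indep K D) (S : Finset ℕ) (hS : 0 ∉ S)
    (A B : Over (Spec (.of K))) [GrpObj A] [IsAbVar A] [GrpObj B] [IsAbVar B]
    (hAB : IsQuadTwist A B (num S))
    (he : Even (∑ J : Finset (Fin m), chiRank A (num (S ∆ cmb D J)))) :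
    Even (Module.rank ℤ (Pts B (sqrtField K D))) := by
  classical
  have hfd0 : FiniteDimensional K (sqrtField K D) := sqrtField_finite D
  have hgal : IsGalois K (sqrtField K D) := sqrtField_isGalois D
  have h0c : ∀ J, 0 ∉ cmb D J := by
    intro J
    refine cmb_induction D (fun S => 0 ∉ S) (Finset.notMem_empty 0) (fun S S' h h' hm => ?_) h0 J
    rcases Finset.mem_symmDiff.1 hm with h2 | h2
    · exact h h2.1
    · exact h' h2.1
  rcases lt_or_ge (Module.rank ℤ (Pts B (sqrtField K D))) Cardinal.aleph0 with h1 | h1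
  · obtain ⟨r, hr⟩ := Cardinal.lt_aleph0.1 h1
    rw [hr]
    apply gt_even_nat
    have hfinG : Finite (sqrtField K D ≃ₐ[K] sqrtField K D) := inferInstance
    obtain ⟨M, _, _, ρ, hM, hε⟩ := exists_twistRep A B _ hAB (sqrtField K D)
    have hMr : Module.rank ℚ M = (r : Cardinal) := hM.trans hr
    have hfd : FiniteDimensional ℚ M := Module.rank_lt_aleph0_iff.1 (by
      rw [hMr]; exact Cardinal.natCast_lt_aleph0)
    have hMf : Module.finrank ℚ M = r := Module.finrank_eq_of_rank_eq hMr
    obtain ⟨N, hN, hodd, h2⟩ := sqrtField_two (K := K) D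
    have hmod := finrank_two_nilpotent N hodd h2 ρ
    obtain ⟨E, hE⟩ := exists_equiv D h0 hind
    have hfin : Finite ((sqrtField K D ≃ₐ[K] sqrtField K D) →* ℤˣ) := DFunLike.finite _
    have _ : Fintype ((sqrtField K D ≃ₐ[K] sqrtField K D) →* ℤˣ) := Fintype.ofFinite _
    rw [hMf, finsum_eq_sum_of_fintype, ← Equiv.sum_comp E] at hmod
    have h5 : ∀ J : Finset (Fin m),
        Module.finrank ℚ (epsPart ρ (E J)) = chiRank A (num (S ∆ cmb D J)) := by
      intro J
      have h6 := hε (E J) (num (S ∆ cmb D J)) (fun σ => by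
        rw [hE, chi_num_symmDiff hS (h0c J), MonoidHom.mul_apply, mul_comm])
      unfold chiRank Module.finrank
      rw [h6]
    rw [Finset.sum_congr rfl fun J _ => h5 J] at hmod
    rw [Nat.even_iff] at he ⊢
    exact (show r % 2 = _ from hmod).trans he
  · have h2 := gt_even_infinite _ h1 0
    rwa [Nat.cast_zero, add_zero] at h2

end Pool.Agent.H.MP_ac3185_nt.HT
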