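import Pool.Agent.H.MP_ac3185_nt.helper16.Cmb

/-! Half of all pairs: the sign of the twist at a place which does not divide `2 N`. -/

set_option autoImplicit false

open CategoryTheory AlgebraicGeometry NumberField IsDedekindDomain
open scoped MonObj

namespace Pool.Agent.H.MP_ac3185_nt.HT

universe u

variable {K : Type u} [Field K] [NumberField K]

/-- The product of two non-squares in a finite field is a square. -/
private theorem RootN_sq {k : Type*} [Field k] [Finite k] {a b : k} (ha : ¬ IsSquare a)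
    (hb : ¬ IsSquare b) : IsSquare (a * b) := by
  classical
  have : Fintype k := Fintype.ofFinite k
  have h0 : a * b ≠ 0 := by
    intro h
    rcases mul_eq_zero.1 h with h | h
    · exact ha (by rw [h]; exact IsSquare.zero)
    · exact hb (by rw [h]; exact IsSquare.zero)
  rw [← quadraticChar_one_iff_isSquare h0, map_mul,
    quadraticChar_neg_one_iff_not_isSquare.2 ha, quadraticChar_neg_one_iff_not_isSquare.2 hb]
  norm_num

private theorem RootN_prod (v : HeightOneSpectrum (𝓞 K)) (hfin : Finite (𝓞 K ⧸ v.asIdeal))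
    {y : 𝓞 K ⧸ v.asIdeal} (h1 : ¬ IsSquare (-1 : 𝓞 K ⧸ v.asIdeal)) (h2 : ¬ IsSquare y) :
    IsSquare (-y) := by
  have hmv : v.asIdeal.IsMaximal := v.isMaximal
  letI : Field (𝓞 K ⧸ v.asIdeal) := Ideal.Quotient.field v.asIdeal
  have h3 := RootN_sq (k := 𝓞 K ⧸ v.asIdeal) (a := -1) (b := y) h1 h2
  rw [neg_one_mul] at h3
  exact h3

/-- PROOF. The residue field `k` of `v` is a finite field of odd characteristic. If `-1` is a square
in `k`: map a square root to `𝓞 F ⧸ w`. Otherwise `-1` and `n` are not squares in `k` (`n` is not a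
square by `hb`), so `- n = b ^ 2` in `k` (product of two non-squares, e.g.
`FiniteField.isSquare_iff`, `FiniteField.pow_dichotomy`); in `𝓞 F ⧸ w`: `n = a ^ 2` with the algebraic
integer `a = x`, `a ≠ 0` there, so `-1 = (b / a) ^ 2` (the quotient is a field). -/
theorem neg_one_square (n : ℕ) (v : HeightOneSpectrum (𝓞 K)) (h2 : ((2 : ℕ) : 𝓞 K) ∉ v.asIdeal)
    (hn : (n : 𝓞 K) ∉ v.asIdeal) (hb : ∀ b : 𝓞 K, (n : 𝓞 K) - b ^ 2 ∉ v.asIdeal)
    (F : IntermediateField K (AlgebraicClosure K)) [FiniteDimensional K F]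
    (x : AlgebraicClosure K) (hxF : x ∈ F) (hx : x ^ 2 = (n : AlgebraicClosure K))
    (w : HeightOneSpectrum (𝓞 F)) (hw : Divides F w v) :
    IsSquare (-1 : 𝓞 F ⧸ w.asIdeal) := by
  have hle : v.asIdeal ≤ w.asIdeal.comap (algebraMap (𝓞 K) (𝓞 F)) := by
    unfold Divides at hw
    rw [hw]
  have hmv : v.asIdeal.IsMaximal := v.isMaximal
  have hNF : NumberField F := NumberField.of_module_finite K F
  have hmw : w.asIdeal.IsMaximal := w.isMaximal
  obtain ⟨φ, hφ⟩ : ∃ φ : (𝓞 K ⧸ v.asIdeal) →+* (𝓞 F ⧸ w.asIdeal), φ = φ := ⟨Ideal.quotientMap w.asIdeal (algebraMap (𝓞 K) (𝓞 F)) hle, rfl⟩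
  by_cases h1 : IsSquare (-1 : 𝓞 K ⧸ v.asIdeal)
  · have h3 := h1.map φ
    rwa [map_neg, map_one] at h3
  -- `n` is not a square
  have hns : ¬ IsSquare ((n : ℕ) : 𝓞 K ⧸ v.asIdeal) := by
    rintro ⟨c, hc⟩
    obtain ⟨b, rfl⟩ := Ideal.Quotient.mk_surjective c
    apply hb b
    rw [← Ideal.Quotient.eq_zero_iff_mem, map_sub, map_natCast, map_pow, hc, pow_two, sub_self]
  have hprod : IsSquare (-(n : 𝓞 K ⧸ v.asIdeal)) := by
    have hfin : Finite (𝓞 K ⧸ v.asIdeal) := Ideal.finiteQuotientOfFreeOfNeBot v.asIdeal v.ne_bot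
    exact RootN_prod v hfin h1 hns
  obtain ⟨b, hb'⟩ := hprod
  -- the square root of `n`
  have hxi : IsIntegral ℤ (⟨x, hxF⟩ : F) := by
    refine IsIntegral.of_pow two_pos ?_
    have h3 : (⟨x, hxF⟩ : F) ^ 2 = ((n : ℕ) : F) := by
      apply Subtype.ext
      show x ^ 2 = _
      rw [hx]
      rfl
    rw [h3]
    exact isIntegral_natCast n
  obtain ⟨a, ha⟩ : ∃ a : 𝓞 F, a ^ 2 = ((n : ℕ) : 𝓞 F) := by
    refine ⟨⟨⟨x, hxF⟩, hxi⟩, ?_⟩
    apply RingOfIntegers.ext
    apply Subtype.ext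
    show x ^ 2 = _
    rw [hx]
    simp
  have hnw : Ideal.Quotient.mk w.asIdeal a ≠ 0 := by
    intro h3
    apply hn
    unfold Divides at hw
    rw [← hw, Ideal.mem_comap, map_natCast, ← ha]
    rw [Ideal.Quotient.eq_zero_iff_mem] at h3
    exact Ideal.pow_mem_of_mem _ h3 2 two_pos
  obtain ⟨c, hc⟩ := Ideal.Quotient.exists_inv hnw
  refine ⟨φ b * c, ?_⟩
  have h4 := congrArg φ hb'
  rw [map_neg, map_natCast, map_mul] at h4
  have h5 : (Ideal.Quotient.mk w.asIdeal a) ^ 2 = ((n : ℕ) : 𝓞 F ⧸ w.asIdeal) := by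
    rw [← map_pow, ha, map_natCast]
  calc (-1 : 𝓞 F ⧸ w.asIdeal) = -((Ideal.Quotient.mk w.asIdeal a * c) * (Ideal.Quotient.mk w.asIdeal a * c)) := by
        rw [hc, one_mul]
    _ = -((Ideal.Quotient.mk w.asIdeal a) ^ 2) * (c * c) := by ring
    _ = φ b * φ b * (c * c) := by rw [h5, h4]
    _ = φ b * c * (φ b * c) := by ring

end Pool.Agent.H.MP_ac3185_nt.HT
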