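import Pool.Agent.H.MP_ac3185_nt.helper16.RootI
import Pool.Agent.H.MP_ac3185_nt.helper16.RootN

/-! Half of all pairs: the sign of the twist at a place which does not divide `2 N`. -/

set_option autoImplicit false

open CategoryTheory AlgebraicGeometry NumberField IsDedekindDomain
open scoped MonObj

namespace Pool.Agent.H.MP_ac3185_nt.HT

universe u

variable {K : Type u} [Field K] [NumberField K]

/-- PROOF. As `rootb_place`. Choose `𝔔` above `w` (`rootb_primeOver`). If `num E ∈ v`: `hW.good`, the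
inertia elements which fix `F` fix `x`, so they fix `s` (`inertia_fix_two`), and `rootb_pos` applies.
If `num E ∉ v`: `hW.twist` with `neg_one_square` and `rootb_pos`, `rootb_neg`. -/
theorem place_sign (A B : Over (Spec (.of K))) [GrpObj A] [IsAbVar A] [GrpObj B] [IsAbVar B]
    {N : ℕ} (hA : GoodOutside A N) (S E : Finset ℕ) (hS : ∀ q ∈ S, q.Prime)
    (hE : ∀ q ∈ E, q.Prime) (hAB : IsQuadTwist A B (num S)) (W : LocalSigns K)
    (hW : IsRootNumberFamily B W) (F : IntermediateField K (AlgebraicClosure K))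
    [FiniteDimensional K F] (x : AlgebraicClosure K) (hxF : x ∈ F)
    (hx : x ^ 2 = (num E : AlgebraicClosure K)) (v : HeightOneSpectrum (𝓞 K))
    (hv : ((2 * N : ℕ) : 𝓞 K) ∉ v.asIdeal)
    (hb : (num E : 𝓞 K) ∈ v.asIdeal ∨ ∀ b : 𝓞 K, (num E : 𝓞 K) - b ^ 2 ∉ v.asIdeal)
    (w : HeightOneSpectrum (𝓞 F)) (hw : Divides F w v) : W F w = 1 := by
  obtain ⟨𝔔, h𝔔, hab⟩ := rootb_primeOver F w v hw
  have hN : (N : 𝓞 K) ∉ v.asIdeal := fun h => hv (by
    rw [Nat.cast_mul]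
    exact Ideal.mul_mem_left _ _ h)
  have h2 : ((2 : ℕ) : 𝓞 K) ∉ v.asIdeal := fun h => hv (by
    rw [Nat.cast_mul]
    exact Ideal.mul_mem_right _ _ h)
  have h2Q : ((2 : ℕ) : 𝓞 (AlgebraicClosure K)) ∉ 𝔔 := fun h => h2 ((rootb_cast_mem hab 2).1 h)
  have hA' := hA v hN 𝔔 hab
  obtain ⟨φ, hφ⟩ := hAB
  obtain ⟨s, hs⟩ := IsAlgClosed.exists_pow_nat_eq (num S : AlgebraicClosure K) (n := 2) two_pos
  by_cases hn : (num E : 𝓞 K) ∈ v.asIdeal
  · -- inertia over `F` fixes the square roots of `num S`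
    refine hW.good F w 𝔔 h𝔔 fun ℓ _ hℓ => ?_
    obtain ⟨h3, h4⟩ := hA' ℓ hℓ
    refine ⟨rootb_finite φ ℓ h3, fun g hg hgF => ?_⟩
    have hgx : g x = x := (IntermediateField.mem_fixingSubgroup_iff F g).1 hgF x hxF
    have hgs : g s = s := inertia_fix_two S E hS hE v h2 hn 𝔔 hab g hg s x hs hx hgx
    exact rootb_pos φ ℓ g (h4 g hg) fun y => (hφ g s hs y).1 hgs
  · -- `-1` is a square in the residue field of `w`
    refine hW.twist F w 𝔔 h𝔔 (by exact_mod_cast h2Q)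
      (neg_one_square (num E) v h2 hn (hb.resolve_left hn) F x hxF hx w hw) ?_
    intro ℓ _ hℓ
    obtain ⟨h3, h4⟩ := hA' ℓ hℓ
    refine ⟨rootb_finite φ ℓ h3, fun g hg _ => ?_⟩
    by_cases hgs : g s = s
    · exact Or.inl (rootb_pos φ ℓ g (h4 g hg) fun y => (hφ g s hs y).1 hgs)
    · exact Or.inr (rootb_neg φ ℓ g (h4 g hg) fun y => (hφ g s hs y).2 hgs)

end Pool.Agent.H.MP_ac3185_nt.HT
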