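import Pool.Agent.H.MP_ac3185_nt.helper16.RootA
import Pool.Agent.H.MP_ac3185_nt.helper16.RootC
import Pool.Agent.H.MP_ac3185_nt.U.Root

/-! Half of all pairs: the global root number. -/

set_option autoImplicit false

open CategoryTheory AlgebraicGeometry NumberField IsDedekindDomain
open scoped MonObj

namespace Pool.Agent.H.MP_ac3185_nt.HT

universe u

variable {K : Type u} [Field K] [NumberField K]

/-- PROOF. As `root_twist` (`U/Root.lean`): infinite places `even_infinite`; places above `2 N`: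
`even_places` with `decomp_two`; other places at which `num E` is a nonzero square: `even_places` with
`decomp_odd`; the others: `place_sign`. -/
theorem root_half (A B : Over (Spec (.of K))) [GrpObj A] [IsAbVar A] [GrpObj B] [IsAbVar B]
    {N : ℕ} (hN : N ≠ 0) (hA : GoodOutside A N) (S E : Finset ℕ) (hS : ∀ q ∈ S, q.Prime)
    (hE : ∀ q ∈ E, q.Prime) (hNE : Nice N E) (hAB : IsQuadTwist A B (num S)) (W : LocalSigns K)
    (hW : IsRootNumberFamily B W) (g : ℕ) (F : IntermediateField K (AlgebraicClosure K))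
    [FiniteDimensional K F] [IsGalois K F] (x : AlgebraicClosure K) (hxF : x ∈ F)
    (hx : x ^ 2 = (num E : AlgebraicClosure K)) (hK : ∀ y : K, y ^ 2 ≠ (num E : K)) :
    signOver W g F = 1 := by
  have _ := hN
  have h1 := even_infinite F (num E) x hxF hx hK
  unfold signOver
  rw [(h1.mul_left g).neg_one_pow, one_mul, (finprod_places F (W F) (hW.almost F)).2]
  rw [finprod_congr (g := fun _ => (1 : ℤ)), finprod_one]
  intro v
  have hprod : (∀ 𝔓 : Ideal (𝓞 (AlgebraicClosure K)), Above 𝔓 v → ∀ σ ∈ decompGrp K 𝔓, σ x = x) →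
      ∏ᶠ w : {w : HeightOneSpectrum (𝓞 F) // Divides F w v}, W F w = 1 := by
    intro hfix
    have hev := even_places F (num E) x hxF hx hK v hfix
    obtain ⟨𝔓, h𝔓⟩ := exists_above v
    obtain ⟨T, hT, -⟩ := exists_T F F le_rfl v 𝔓 h𝔓
    have hfin : Finite {w : HeightOneSpectrum (𝓞 F) // Divides F w v} :=
      Finite.of_surjective T hT
    exact root_prod_even hev _ (fun w => hW.sign F w.1)
      (fun w w' => hW.transport F v w.1 w'.1 w.2 w'.2)
  by_cases hv : ((2 * N : ℕ) : 𝓞 K) ∈ v.asIdeal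
  · exact hprod fun 𝔓 h𝔓 σ hσ => decomp_two hN E hNE v hv 𝔓 h𝔓 σ hσ x hx
  · have h2 : ((2 : ℕ) : 𝓞 K) ∉ v.asIdeal := fun h => hv (by
      rw [Nat.cast_mul]
      exact Ideal.mul_mem_right _ _ h)
    by_cases hc : (num E : 𝓞 K) ∈ v.asIdeal ∨ ∀ b : 𝓞 K, (num E : 𝓞 K) - b ^ 2 ∉ v.asIdeal
    · rw [finprod_congr (g := fun _ => (1 : ℤ)), finprod_one]
      intro w
      exact place_sign A B hA S E hS hE hAB W hW F x hxF hx v hv hc w.1 w.2
    · push Not at hc
      obtain ⟨hn, b, hb⟩ := hc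
      exact hprod fun 𝔓 h𝔓 σ hσ => decomp_odd (num E) v h2 hn b hb 𝔓 h𝔓 σ hσ x hx

end Pool.Agent.H.MP_ac3185_nt.HT
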