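import Pool.Agent.H.MP_ac3185_nt.helper16.RootD

/-! Half of all pairs: decomposition groups which fix a square root. -/

set_option autoImplicit false

open CategoryTheory AlgebraicGeometry NumberField IsDedekindDomain
open scoped MonObj

namespace Pool.Agent.H.MP_ac3185_nt.HT

universe u

variable {K : Type u} [Field K] [NumberField K]

omit [NumberField K] in
/-- The field generated by a square root of a number which is not a square. -/
private theorem RootA_finrank (n : ℕ) (x : AlgebraicClosure K)
    (hx : x ^ 2 = (n : AlgebraicClosure K)) (hK : ∀ y : K, y ^ 2 ≠ (n : K)) :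
    Module.finrank K (IntermediateField.adjoin K {x}) = 2 := by
  have hirr : Irreducible (Polynomial.X ^ 2 - Polynomial.C (n : K) : Polynomial K) :=
    X_pow_sub_C_irreducible_of_prime Nat.prime_two hK
  have hmon : (Polynomial.X ^ 2 - Polynomial.C (n : K) : Polynomial K).Monic :=
    Polynomial.monic_X_pow_sub_C (n : K) two_ne_zero
  have hroot : Polynomial.aeval x (Polynomial.X ^ 2 - Polynomial.C (n : K) : Polynomial K) = 0 := by
    simp [hx]
  have hmin := minpoly.eq_of_irreducible_of_monic hirr hroot hmon
  have hint : IsIntegral K x := ⟨_, hmon, by rwa [Polynomial.aeval_def] at hroot⟩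
  rw [IntermediateField.adjoin.finrank hint, ← hmin, Polynomial.natDegree_X_pow_sub_C]

private theorem RootA_fix (x : AlgebraicClosure K)
    (σ : AlgebraicClosure K ≃ₐ[K] AlgebraicClosure K) (hσ : σ x = x) :
    ∀ y ∈ IntermediateField.adjoin K {x}, σ y = y := by
  intro y hy
  induction hy using IntermediateField.adjoin_induction with
  | mem z hz =>
    rw [Set.mem_singleton_iff.1 hz]
    exact hσ
  | algebraMap z => exact σ.commutes z
  | add z w _ _ h1 h2 => rw [map_add, h1, h2]
  | inv z _ h1 => rw [map_inv₀, h1]
  | mul z w _ _ h1 h2 => rw [map_mul, h1, h2]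

private theorem RootA_places (F Q : IntermediateField K (AlgebraicClosure K))
    [FiniteDimensional K F] [IsGalois K F] (hQ : Q ≤ F) (h2 : Module.finrank K Q = 2)
    (v : HeightOneSpectrum (𝓞 K))
    (hfix : ∀ 𝔓 : Ideal (𝓞 (AlgebraicClosure K)), Above 𝔓 v →
      ∀ σ ∈ decompGrp K 𝔓, σ ∈ Q.fixingSubgroup) :
    Even (Nat.card {w : HeightOneSpectrum (𝓞 F) // Divides F w v}) := by
  obtain ⟨𝔓, h𝔓⟩ := exists_above v
  obtain ⟨T, hT1, hT2, -⟩ := exists_T F F le_rfl v 𝔓 h𝔓
  set D := (decompGrp K 𝔓).map (AlgEquiv.restrictNormalHom F) with hD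
  have hDQ : D ≤ relGal F Q := by
    rintro _ ⟨σ, hσ, rfl⟩
    rw [← map_fixingSubgroup F Q hQ]
    exact Subgroup.mem_map_of_mem _ (hfix 𝔓 h𝔓 σ hσ)
  have hcard : Nat.card {w : HeightOneSpectrum (𝓞 F) // Divides F w v} = D.index := by
    have hlift : ∀ a b : F ≃ₐ[K] F, (QuotientGroup.leftRel D) a b → T a = T b := by
      intro a b hab
      rw [QuotientGroup.leftRel_apply] at hab
      rw [hT2]
      exact ⟨1, Subgroup.one_mem _, ⟨a⁻¹ * b, hab⟩, by simp⟩
    let f : ((F ≃ₐ[K] F) ⧸ D) → {w : HeightOneSpectrum (𝓞 F) // Divides F w v} :=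
      fun z => Quotient.lift T hlift z
    have hf : Function.Bijective f := by
      constructor
      · intro a b
        induction a using Quotient.inductionOn with
        | _ a =>
          induction b using Quotient.inductionOn with
          | _ b =>
            intro hab
            have h1 : T a = T b := hab
            rw [hT2] at h1
            obtain ⟨h, hh, d, hd⟩ := h1
            have hh1 : h = 1 := by
              have h3 : h ∈ relGal F F := hh
              apply AlgEquiv.ext
              intro y
              exact h3 y y.2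
            apply Quotient.sound
            show (QuotientGroup.leftRel D) a b
            rw [QuotientGroup.leftRel_apply, hd, hh1]
            have : a⁻¹ * (1 * a * (d : F ≃ₐ[K] F)) = d := by group
            rw [this]
            exact d.2
      · intro w
        obtain ⟨g, hg⟩ := hT1 w
        exact ⟨Quotient.mk _ g, hg⟩
    rw [← Nat.card_congr (Equiv.ofBijective f hf)]
    rfl
  rw [hcard, ← Subgroup.relIndex_mul_index hDQ, roota_index F Q hQ h2]
  exact even_two.mul_left _

/-- An even number of places.
PROOF. As `roota_finite_places` (`U/RootA.lean`) with the group of the automorphisms of `F` which fix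
`x` (index `2`: `Q = K(x)` has degree `2`, `roota_index`, or directly) instead of `relGal F Q`. -/
theorem even_places (F : IntermediateField K (AlgebraicClosure K)) [FiniteDimensional K F]
    [IsGalois K F] (n : ℕ) (x : AlgebraicClosure K) (hxF : x ∈ F)
    (hx : x ^ 2 = (n : AlgebraicClosure K)) (hK : ∀ y : K, y ^ 2 ≠ (n : K))
    (v : HeightOneSpectrum (𝓞 K))
    (hfix : ∀ 𝔓 : Ideal (𝓞 (AlgebraicClosure K)), Above 𝔓 v →
      ∀ σ ∈ decompGrp K 𝔓, σ x = x) :
    Even (Nat.card {w : HeightOneSpectrum (𝓞 F) // Divides F w v}) := by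
  refine RootA_places F (IntermediateField.adjoin K {x})
    (IntermediateField.adjoin_simple_le_iff.2 hxF) (RootA_finrank n x hx hK) v ?_
  intro 𝔓 h𝔓 σ hσ
  rw [IntermediateField.mem_fixingSubgroup_iff]
  exact RootA_fix x σ (hfix 𝔓 h𝔓 σ hσ)

/-- PROOF. `Q = K(x)` is quadratic over `K` and contained in `primeTower K {n}`; `roota_infinite`. -/
theorem even_infinite (F : IntermediateField K (AlgebraicClosure K)) [FiniteDimensional K F]
    [IsGalois K F] (n : ℕ) (x : AlgebraicClosure K) (hxF : x ∈ F)
    (hx : x ^ 2 = (n : AlgebraicClosure K)) (hK : ∀ y : K, y ^ 2 ≠ (n : K)) :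
    Even (Nat.card (InfinitePlace F)) := by
  refine roota_infinite F (IntermediateField.adjoin K {x})
    (IntermediateField.adjoin_simple_le_iff.2 hxF) (RootA_finrank n x hx hK) {n} ?_
  rw [IntermediateField.adjoin_simple_le_iff]
  unfold primeTower
  exact IntermediateField.subset_adjoin K _ ⟨n, rfl, hx⟩

end Pool.Agent.H.MP_ac3185_nt.HT
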