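import Pool.Agent.H.MP_ac3185_nt.helper16.Cmb

/-! Half of all pairs: decomposition groups which fix a square root. -/

set_option autoImplicit false

open CategoryTheory AlgebraicGeometry NumberField IsDedekindDomain
open scoped MonObj

namespace Pool.Agent.H.MP_ac3185_nt.HT

universe u

variable {K : Type u} [Field K] [NumberField K]

/-- The decomposition groups above `2 N` fix the square roots of `num E` if it is a square modulo
`8 N`. PROOF. As `roota_decomp` (`U/RootA.lean`): `b ^ 2 * num E = 4 * k + 1` with `2 N ∣ k`, apply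
the argument there to the square root `b * x` of this number; `b ≠ 0`. (If `b ^ 2 * num E = 1` then
`k = 0`, which is fine.) -/
theorem decomp_two {N : ℕ} (hN : N ≠ 0) (E : Finset ℕ) (hE : Nice N E) (v : HeightOneSpectrum (𝓞 K))
    (hv : ((2 * N : ℕ) : 𝓞 K) ∈ v.asIdeal) (𝔓 : Ideal (𝓞 (AlgebraicClosure K)))
    (h𝔓 : Above 𝔓 v) (σ : AlgebraicClosure K ≃ₐ[K] AlgebraicClosure K)
    (hσ : σ ∈ decompGrp K 𝔓) (x : AlgebraicClosure K)
    (hx : x ^ 2 = (num E : AlgebraicClosure K)) : σ x = x := by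
  have hp : 𝔓.IsPrime := h𝔓.1
  rcases sq_map_eq (num E) σ x hx with h | h
  · exact h
  exfalso
  obtain ⟨b, hb⟩ := hE
  -- `b ^ 2 * num E = 4 k + 1` with `2 N ∣ k`
  have hpos : 1 ≤ b ^ 2 * num E := by
    by_contra h0
    have h1 : b ^ 2 * num E = 0 := by omega
    rw [h1] at hb
    have h2 := (Nat.modEq_iff_dvd' (Nat.zero_le 1)).1 hb
    rw [Nat.sub_zero, Nat.dvd_one] at h2
    omega
  obtain ⟨c, hc⟩ := (Nat.modEq_iff_dvd' hpos).1 hb.symm
  have hqk : b ^ 2 * num E = 4 * (2 * N * c) + 1 := by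
    have h8 : 8 * N * c = 4 * (2 * N * c) := by ring
    omega
  obtain ⟨a, ha, hak⟩ := roota_half (F := AlgebraicClosure K) (2 * N * c)
    ((b : AlgebraicClosure K) * x) (by
      rw [mul_pow, hx, ← hqk]
      push_cast
      ring)
  have hk : ((2 * N * c : ℕ) : 𝓞 (AlgebraicClosure K)) ∈ 𝔓 := by
    have h1 : ((2 * N * c : ℕ) : 𝓞 K) ∈ v.asIdeal := by
      rw [Nat.cast_mul]
      exact Ideal.mul_mem_right _ _ hv
    rw [← h𝔓.2, Ideal.mem_comap, map_natCast] at h1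
    exact h1
  have hsa : galInt σ a = 1 - a := by
    apply RingOfIntegers.ext
    have h1 : ((galInt σ a : 𝓞 (AlgebraicClosure K)) : AlgebraicClosure K) =
      σ (a : AlgebraicClosure K) := rfl
    have h2 : ((1 - a : 𝓞 (AlgebraicClosure K)) : AlgebraicClosure K) =
      1 - (a : AlgebraicClosure K) := rfl
    rw [h1, h2, ha, map_div₀, map_add, map_one, map_mul, map_natCast, h, map_ofNat]
    ring
  have h1 : a ∈ 𝔓 ↔ 1 - a ∈ 𝔓 := by
    rw [← hsa]
    exact (hσ a).symm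
  have h2 : ¬ (a ∈ 𝔓 ∧ 1 - a ∈ 𝔓) := by
    rintro ⟨h3, h4⟩
    apply hp.ne_top
    rw [Ideal.eq_top_iff_one]
    have := add_mem h3 h4
    rwa [add_sub_cancel] at this
  rw [← hak] at hk
  rcases hp.mem_or_mem hk with h3 | h3
  · exact h2 ⟨h3, h1.1 h3⟩
  · have h4 : 1 - a ∈ 𝔓 := by
      have := neg_mem h3
      rwa [neg_sub] at this
    exact h2 ⟨h1.2 h4, h4⟩

/-- The decomposition groups above an odd place at which the number `n` is a nonzero square fix the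
square roots of `n`. PROOF. `x` is integral (`X ^ 2 - n`), let `a` be the algebraic integer. In
`𝔓`: `(a - b) * (a + b) = n - b ^ 2 ∈ 𝔓`; say `a - c ∈ 𝔓` with `c = ± b ∈ 𝓞 K`. `σ` fixes `c` and
preserves `𝔓` (definition of `decompGrp`), so `σ a - c ∈ 𝔓`. If `σ x ≠ x` then `σ a = -a`
(`sq_map_eq`), so `2 a ∈ 𝔓`, hence `a ∈ 𝔓` (`2 ∉ 𝔓`: `rootb_cast_mem`), and `n = a ^ 2 ∈ 𝔓`. -/
theorem decomp_odd (n : ℕ) (v : HeightOneSpectrum (𝓞 K)) (h2 : ((2 : ℕ) : 𝓞 K) ∉ v.asIdeal)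
    (hn : (n : 𝓞 K) ∉ v.asIdeal) (b : 𝓞 K) (hb : (n : 𝓞 K) - b ^ 2 ∈ v.asIdeal)
    (𝔓 : Ideal (𝓞 (AlgebraicClosure K))) (h𝔓 : Above 𝔓 v)
    (σ : AlgebraicClosure K ≃ₐ[K] AlgebraicClosure K) (hσ : σ ∈ decompGrp K 𝔓)
    (x : AlgebraicClosure K) (hx : x ^ 2 = (n : AlgebraicClosure K)) : σ x = x := by
  have hp : 𝔓.IsPrime := h𝔓.1
  have h2Q : ((2 : ℕ) : 𝓞 (AlgebraicClosure K)) ∉ 𝔓 := fun h => h2 ((rootb_cast_mem h𝔓 2).1 h)
  rcases sq_map_eq n σ x hx with h | h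
  · exact h
  exfalso
  have hint : IsIntegral ℤ x := by
    refine ⟨Polynomial.X ^ 2 - Polynomial.C ((n : ℕ) : ℤ), ?_, ?_⟩
    · exact Polynomial.monic_X_pow_sub_C _ two_ne_zero
    · rw [Polynomial.eval₂_sub, Polynomial.eval₂_pow, Polynomial.eval₂_X,
        Polynomial.eval₂_C, hx]
      simp
  obtain ⟨a, ha⟩ : ∃ a : 𝓞 (AlgebraicClosure K), (a : AlgebraicClosure K) = x := ⟨⟨x, hint⟩, rfl⟩
  have h7 : a * a = ((n : ℕ) : 𝓞 (AlgebraicClosure K)) := by
    apply RingOfIntegers.ext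
    have e1 : ((a * a : 𝓞 (AlgebraicClosure K)) : AlgebraicClosure K) =
      (a : AlgebraicClosure K) * a := rfl
    rw [e1, ha, ← sq, hx]
    simp
  -- one of `a - b`, `a + b` is in the ideal
  have hc : ∃ c : 𝓞 K, a - algebraMap (𝓞 K) (𝓞 (AlgebraicClosure K)) c ∈ 𝔓 := by
    have h3 : (a - algebraMap (𝓞 K) (𝓞 (AlgebraicClosure K)) b) *
        (a - algebraMap (𝓞 K) (𝓞 (AlgebraicClosure K)) (-b)) ∈ 𝔓 := by
      rw [← h𝔓.2, Ideal.mem_comap, map_sub, map_pow, map_natCast, ← h7] at hb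
      have h4 : (a - algebraMap (𝓞 K) (𝓞 (AlgebraicClosure K)) b) *
        (a - algebraMap (𝓞 K) (𝓞 (AlgebraicClosure K)) (-b)) =
        a * a - algebraMap (𝓞 K) (𝓞 (AlgebraicClosure K)) b ^ 2 := by
        rw [map_neg]
        ring
      rw [h4]
      exact hb
    rcases hp.mem_or_mem h3 with h4 | h4
    · exact ⟨b, h4⟩
    · exact ⟨-b, h4⟩
  obtain ⟨c, hc⟩ := hc
  have h5 : -a - algebraMap (𝓞 K) (𝓞 (AlgebraicClosure K)) c ∈ 𝔓 := by
    have h6 : galInt σ (a - algebraMap (𝓞 K) (𝓞 (AlgebraicClosure K)) c) =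
        -a - algebraMap (𝓞 K) (𝓞 (AlgebraicClosure K)) c := by
      apply RingOfIntegers.ext
      have e1 : ((galInt σ (a - algebraMap (𝓞 K) (𝓞 (AlgebraicClosure K)) c) :
          𝓞 (AlgebraicClosure K)) : AlgebraicClosure K) =
          σ ((a : AlgebraicClosure K) - algebraMap K (AlgebraicClosure K) (c : K)) := rfl
      have e2 : ((-a - algebraMap (𝓞 K) (𝓞 (AlgebraicClosure K)) c :
          𝓞 (AlgebraicClosure K)) : AlgebraicClosure K) =
          -(a : AlgebraicClosure K) - algebraMap K (AlgebraicClosure K) (c : K) := rfl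
      rw [e1, e2, map_sub, AlgEquiv.commutes, ha, h]
    rw [← h6]
    exact (hσ _).2 hc
  have h6 : 2 * a ∈ 𝔓 := by
    have h8 := sub_mem hc h5
    have h9 : a - algebraMap (𝓞 K) (𝓞 (AlgebraicClosure K)) c -
        (-a - algebraMap (𝓞 K) (𝓞 (AlgebraicClosure K)) c) = 2 * a := by ring
    rwa [h9] at h8
  rcases hp.mem_or_mem h6 with h8 | h8
  · exact h2Q (by exact_mod_cast h8)
  · have h9 : a * a ∈ 𝔓 := Ideal.mul_mem_left _ _ h8
    rw [h7] at h9
    exact hn ((rootb_cast_mem h𝔓 _).1 h9)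

end Pool.Agent.H.MP_ac3185_nt.HT
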