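import Pool.Agent.H.MP_ac3185_nt.helper16.Cmb

/-! Half of all pairs: the sign of the twist at a place which does not divide `2 N`. -/

set_option autoImplicit false

open CategoryTheory AlgebraicGeometry NumberField IsDedekindDomain
open scoped MonObj

namespace Pool.Agent.H.MP_ac3185_nt.HT

universe u

variable {K : Type u} [Field K] [NumberField K]

/-- Inertia fixes square roots of numbers prime to the place. PROOF. In `rootb_place`
(`U/RootB.lean`, second case). -/
theorem inertia_fix (n : ℕ) (v : HeightOneSpectrum (𝓞 K)) (h2 : ((2 : ℕ) : 𝓞 K) ∉ v.asIdeal)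
    (hn : (n : 𝓞 K) ∉ v.asIdeal) (𝔔 : Ideal (𝓞 (AlgebraicClosure K))) (h𝔔 : Above 𝔔 v)
    (g : AlgebraicClosure K ≃ₐ[K] AlgebraicClosure K) (hg : g ∈ inertia K 𝔔)
    (s : AlgebraicClosure K) (hs : s ^ 2 = (n : AlgebraicClosure K)) : g s = s := by
  have hp : 𝔔.IsPrime := h𝔔.1
  have h2Q : ((2 : ℕ) : 𝓞 (AlgebraicClosure K)) ∉ 𝔔 := fun h => h2 ((rootb_cast_mem h𝔔 2).1 h)
  rcases sq_map_eq _ g s hs with h | h
  · exact h
  exfalso
  have hint : IsIntegral ℤ s := by
    refine ⟨Polynomial.X ^ 2 - Polynomial.C (n : ℤ), ?_, ?_⟩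
    · exact Polynomial.monic_X_pow_sub_C _ two_ne_zero
    · rw [Polynomial.eval₂_sub, Polynomial.eval₂_pow, Polynomial.eval₂_X,
        Polynomial.eval₂_C, hs]
      simp
  obtain ⟨a, ha⟩ : ∃ a : 𝓞 (AlgebraicClosure K), (a : AlgebraicClosure K) = s := ⟨⟨s, hint⟩, rfl⟩
  have h5 : galInt g a - a = -(2 * a) := by
    apply RingOfIntegers.ext
    have e1 : ((galInt g a - a : 𝓞 (AlgebraicClosure K)) : AlgebraicClosure K) =
      g (a : AlgebraicClosure K) - a := rfl
    have e2 : ((-(2 * a) : 𝓞 (AlgebraicClosure K)) : AlgebraicClosure K) =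
      -(2 * (a : AlgebraicClosure K)) := rfl
    rw [e1, e2, ha, h]
    ring
  have h6 : (2 * a) ∈ 𝔔 := by
    have := hg a
    rw [h5] at this
    exact neg_mem_iff.1 this
  have h7 : a * a = (n : 𝓞 (AlgebraicClosure K)) := by
    apply RingOfIntegers.ext
    have e1 : ((a * a : 𝓞 (AlgebraicClosure K)) : AlgebraicClosure K) =
      (a : AlgebraicClosure K) * a := rfl
    rw [e1, ha, ← sq, hs]
    simp
  rcases hp.mem_or_mem h6 with h8 | h8
  · exact h2Q (by exact_mod_cast h8)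
  · have h9 : a * a ∈ 𝔔 := Ideal.mul_mem_left _ _ h8
    rw [h7] at h9
    exact hn ((rootb_cast_mem h𝔔 _).1 h9)

/-- Two prime numbers in the same place are equal. -/
private theorem rooti_unique (v : HeightOneSpectrum (𝓞 K)) {p q : ℕ} (hp : p.Prime) (hq : q.Prime)
    (hpv : (p : 𝓞 K) ∈ v.asIdeal) (hqv : (q : 𝓞 K) ∈ v.asIdeal) : p = q := by
  by_contra hpq
  have h1 : Nat.Coprime p q := (Nat.coprime_primes hp hq).2 hpq
  have h2 : IsCoprime (p : ℤ) (q : ℤ) := Nat.isCoprime_iff_coprime.2 h1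
  obtain ⟨a, b, hab⟩ := h2
  have h3 : ((a : 𝓞 K) * (p : 𝓞 K) + (b : 𝓞 K) * (q : 𝓞 K)) = 1 := by
    exact_mod_cast congrArg (Int.cast (R := 𝓞 K)) hab
  have h4 : (1 : 𝓞 K) ∈ v.asIdeal := by
    rw [← h3]
    exact Ideal.add_mem _ (Ideal.mul_mem_left _ _ hpv) (Ideal.mul_mem_left _ _ hqv)
  exact v.isPrime.ne_top ((Ideal.eq_top_iff_one _).2 h4)

/-- A product of primes lies in a place iff one of them does. -/
private theorem rooti_mem (v : HeightOneSpectrum (𝓞 K)) (S : Finset ℕ) :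
    (num S : 𝓞 K) ∈ v.asIdeal ↔ ∃ q ∈ S, (q : 𝓞 K) ∈ v.asIdeal := by
  have hvp := v.isPrime
  unfold num
  rw [Nat.cast_prod]
  exact Ideal.IsPrime.prod_mem_iff

private theorem rooti_erase {S : Finset ℕ} {p : ℕ} (hp : p ∈ S) : num S = p * num (S.erase p) := by
  unfold num
  exact (Finset.mul_prod_erase S (fun q => q) hp).symm

/-- Inertia fixes the square roots of `num S` as soon as it fixes those of `num E` and `num E` is not
prime to the place. PROOF. If `num S ∉ v`: `inertia_fix`. Otherwise a prime `p` divides both: let `p`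
be the prime number in `v` (a prime factor of `num E` lies in `v`, a prime factor of `num S` lies in
`v`; they are equal, otherwise `1 ∈ v`). `y = s * x / p` is a square root of the number
`n = num (S \ {p}) * num (E \ {p})`, whose prime factors are different from `p`, so `n ∉ v`;
`g y = y` by `inertia_fix`, `g x = x`, `x ≠ 0`, so `g s = s`. -/
theorem inertia_fix_two (S E : Finset ℕ) (hS : ∀ q ∈ S, q.Prime) (hE : ∀ q ∈ E, q.Prime)
    (v : HeightOneSpectrum (𝓞 K)) (h2 : ((2 : ℕ) : 𝓞 K) ∉ v.asIdeal)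
    (hn : (num E : 𝓞 K) ∈ v.asIdeal) (𝔔 : Ideal (𝓞 (AlgebraicClosure K))) (h𝔔 : Above 𝔔 v)
    (g : AlgebraicClosure K ≃ₐ[K] AlgebraicClosure K) (hg : g ∈ inertia K 𝔔)
    (s x : AlgebraicClosure K) (hs : s ^ 2 = (num S : AlgebraicClosure K))
    (hx : x ^ 2 = (num E : AlgebraicClosure K)) (hgx : g x = x) : g s = s := by
  by_cases hS' : (num S : 𝓞 K) ∈ v.asIdeal
  swap
  · exact inertia_fix (num S) v h2 hS' 𝔔 h𝔔 g hg s hs
  obtain ⟨p, hpE, hpv⟩ := (rooti_mem v E).1 hn
  obtain ⟨p', hpS, hpv'⟩ := (rooti_mem v S).1 hS'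
  obtain rfl : p = p' := rooti_unique v (hE p hpE) (hS p' hpS) hpv hpv'
  have hp : p.Prime := hE p hpE
  have hnn : ((num (S.erase p) * num (E.erase p) : ℕ) : 𝓞 K) ∉ v.asIdeal := by
    intro h
    rw [Nat.cast_mul] at h
    rcases v.isPrime.mem_or_mem h with h | h
    · obtain ⟨q, hq, hqv⟩ := (rooti_mem v _).1 h
      rw [Finset.mem_erase] at hq
      exact hq.1 (rooti_unique v (hS q hq.2) hp hqv hpv)
    · obtain ⟨q, hq, hqv⟩ := (rooti_mem v _).1 h
      rw [Finset.mem_erase] at hq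
      exact hq.1 (rooti_unique v (hE q hq.2) hp hqv hpv)
  have hp0 : (p : AlgebraicClosure K) ≠ 0 := by
    exact_mod_cast hp.ne_zero
  have hE0 : (num E : AlgebraicClosure K) ≠ 0 := by
    have h1 : num E ≠ 0 := by
      unfold num
      exact Finset.prod_ne_zero_iff.2 fun q hq => (hE q hq).ne_zero
    exact_mod_cast h1
  have hx0 : x ≠ 0 := by
    rintro rfl
    apply hE0
    rw [← hx]
    simp
  have hy : (s * x / (p : AlgebraicClosure K)) ^ 2 =
      ((num (S.erase p) * num (E.erase p) : ℕ) : AlgebraicClosure K) := by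
    rw [div_pow, mul_pow, hs, hx, rooti_erase hpS, rooti_erase hpE]
    push_cast
    field_simp
  have h3 := inertia_fix _ v h2 hnn 𝔔 h𝔔 g hg _ hy
  rw [map_div₀, map_mul, hgx, map_natCast] at h3
  have h4 : g s * x = s * x := by
    have h5 := congrArg (fun z => z * (p : AlgebraicClosure K)) h3
    simpa [div_mul_cancel₀ _ hp0] using h5
  exact mul_right_cancel₀ hx0 h4

end Pool.Agent.H.MP_ac3185_nt.HT
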